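import Pool.Agent.Lib.MP_2f3286_ag.GU.LClass

/-!
# The class of a `p`-th root of a value of a polynomial at a place
-/

open IsDedekindDomain NumberField Polynomial

namespace Pool.Agent.Lib.MP_2f3286_ag.LN

universe u

/-- the embedding of `E` into `M` -/
noncomputable def cE {k E : Type*} [Field k] [Field E] [Algebra k E] (lam : E →ₐ[k] AlgebraicClosure k)
    (M : Type*) [Field M] [Algebra (AlgebraicClosure k) M] : E →+* M :=
  (algebraMap (AlgebraicClosure k) M).comp (lam : E →+* AlgebraicClosure k)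

theorem cE_apply {k E : Type*} [Field k] [Field E] [Algebra k E] (lam : E →ₐ[k] AlgebraicClosure k)
    (M : Type*) [Field M] [Algebra (AlgebraicClosure k) M] (a : E) :
    cE lam M a = algebraMap (AlgebraicClosure k) M (lam a) := rfl

/-- The class `c` of `γ = F₁(t) ^ (1 / p)` over `E` under the section has, at an embedding of `E` into a valued field
at which the values of `F₁` are `p`-th powers up to units, or the values of `F₂` are units, a valuation divisible by `p`. -/
theorem class_val' {k : Type u} [Field k] [NumberField k]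
    {K : Type*} [Field K] [Algebra k K] (R : Subalgebra k K)
    {M : Type*} [Field M] [Algebra K M] [Algebra (AlgebraicClosure k) M] [Algebra k M]
    [IsScalarTower k K M] [IsScalarTower k (AlgebraicClosure k) M]
    {E : Type*} [Field E] [Algebra k E] [Algebra.IsAlgebraic k E] (lam : E →ₐ[k] AlgebraicClosure k)
    (s : Gal(AlgebraicClosure k/k) →* Gal(M/K))
    (hsec : ∀ σ a, s σ (algebraMap (AlgebraicClosure k) M a) =
      algebraMap (AlgebraicClosure k) M (σ a))
    (v : HeightOneSpectrum (𝓞 k))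
    (ι : AlgebraicClosure k →ₐ[k] AlgebraicClosure (v.adicCompletion k))
    (φ : integralClosure R M →+* AlgebraicClosure (v.adicCompletion k))
    (hφ : Respects s (v.adicCompletion k) (ι : _ →+* AlgebraicClosure (v.adicCompletion k)) φ)
    {F : Type*} [Field F] [CharZero F] (j : E →+* F) (η : v.adicCompletion k →+* F)
    (hη : ∀ a : k, η (algebraMap k (v.adicCompletion k) a) = j (algebraMap k E a))
    {Γ : Type*} [LinearOrderedCommGroupWithZero Γ] (w : Valuation F Γ)
    {p : ℕ} (hp0 : p ≠ 0) (t y : R) (F₁ F₂ : E[X]) (μ c : E) (hc : c ≠ 0)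
    (hrel : F₁.eval₂ (cE lam M) (algebraMap R M t) * F₂.eval₂ (cE lam M) (algebraMap R M t) =
      algebraMap _ M (lam μ) * algebraMap R M y ^ p)
    (γ : M) (hγ0 : γ ≠ 0) (hγ : γ ^ p = F₁.eval₂ (cE lam M) (algebraMap R M t))
    (z : AlgebraicClosure k) (hz : z ^ p = lam c)
    (hs : ∀ σ ∈ lam.fieldRange.fixingSubgroup, s σ γ * algebraMap (AlgebraicClosure k) M z =
      γ * algebraMap (AlgebraicClosure k) M (σ z))
    (hμ : w (j μ) = 1)
    (hloc : ∀ T Y : F, F₁.eval₂ j T * F₂.eval₂ j T = j μ * Y ^ p →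
      (∃ u, u ≠ 0 ∧ w (F₁.eval₂ j T) = w u ^ p) ∨ w (F₂.eval₂ j T) = 1) :
    ∃ u : F, u ≠ 0 ∧ w (j c) = w u ^ p := by
  classical
  have hchar : CharZero (v.adicCompletion k) :=
    charZero_of_injective_algebraMap (algebraMap k (v.adicCompletion k)).injective
  obtain ⟨q, hq⟩ := exists_local_point R s v ι φ hφ
  obtain ⟨ι', φ', hres, hι', hφ'⟩ := GU.exists_pair_E R lam s hsec v ι φ hφ q hq j η hη
  have hz0 : z ≠ 0 := by
    rintro rfl
    rw [zero_pow hp0] at hz
    exact hc (by rwa [eq_comm, map_eq_zero] at hz)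
  have hBk : ∀ a : AlgebraicClosure k, IsIntegral R (algebraMap (AlgebraicClosure k) M a) := by
    intro a
    have htow' : IsScalarTower k R M := IsScalarTower.of_algebraMap_eq fun x => by
      rw [IsScalarTower.algebraMap_apply k K M]; rfl
    have h1 : IsIntegral k a := Algebra.IsIntegral.isIntegral a
    have h2 : IsIntegral k (algebraMap (AlgebraicClosure k) M a) := h1.algebraMap
    exact h2.tower_top
  have hL : ∀ x : lam.fieldRange, ∃ y : F, algebraMap F (AlgebraicClosure F) y = ι' x := by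
    rintro ⟨_, l, rfl⟩
    exact ⟨j l, (hι' l).symm⟩
  -- descent of an element with class `z`
  have hdesc : ∀ (β : M) (hβ : IsIntegral R β) (u : AlgebraicClosure k), u ≠ 0 →
      (∀ σ ∈ lam.fieldRange.fixingSubgroup, s σ β * algebraMap (AlgebraicClosure k) M u =
        β * algebraMap (AlgebraicClosure k) M (σ u)) →
      ∃ h : F, φ' ⟨β, hβ⟩ = ι' u * algebraMap F _ h := by
    intro β hβ u hu0 hsβ
    have hMu : algebraMap (AlgebraicClosure k) M u ≠ 0 := (_root_.map_ne_zero _).mpr hu0
    have hιu : ι' u ≠ 0 := (_root_.map_ne_zero _).mpr hu0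
    by_cases hβ0 : β = 0
    · refine ⟨0, ?_⟩
      have h1 : (⟨β, hβ⟩ : integralClosure R M) = 0 := Subtype.ext hβ0
      rw [h1, map_zero, map_zero, mul_zero]
    have hform : ∀ σ ∈ lam.fieldRange.fixingSubgroup,
        s σ β = algebraMap (AlgebraicClosure k) M (σ u / u) * β := by
      intro σ hσ
      rw [map_div₀, div_mul_eq_mul_div, eq_div_iff hMu, hsβ σ hσ, mul_comm]
    obtain ⟨h, hh⟩ := quot_mem (B := integralClosure R M) s hBk hres lam.fieldRange hL
      ⟨β, hβ⟩ (fun σ hσ => ⟨σ u / u, hform σ hσ⟩) (Units.mk0 u hu0) (fun σ hσ ζ hζ => by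
        have h1 : algebraMap (AlgebraicClosure k) M ζ = algebraMap (AlgebraicClosure k) M (σ u / u) := by
          apply mul_right_cancel₀ hβ0
          rw [← hform σ hσ]
          exact hζ.symm
        have h2 := (algebraMap (AlgebraicClosure k) M).injective h1
        rw [Units.val_mk0, h2, div_mul_cancel₀ _ hu0])
    refine ⟨h, ?_⟩
    rw [hh, Units.val_mk0, mul_div_cancel₀ _ hιu]
  -- the values of polynomials
  let cB : E →+* integralClosure R M := (cE lam M).codRestrict (integralClosure R M) fun l => hBk (lam l)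
  have hev : ∀ P : E[X], P.eval₂ (cE lam M) (algebraMap R M t) =
      ((P.eval₂ cB (algebraMap R (integralClosure R M) t) : integralClosure R M) : M) := by
    intro P
    have h4 := hom_eval₂ P cB ((integralClosure R M).val : integralClosure R M →+* M)
      (algebraMap R (integralClosure R M) t)
    exact h4.symm
  have hval : ∀ P : E[X], φ' (P.eval₂ cB (algebraMap R (integralClosure R M) t)) =
      algebraMap F _ (P.eval₂ j (η (q t))) := by
    intro P
    rw [hom_eval₂, hom_eval₂, ← hφ']
    congr 1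
    ext l
    change φ' (cB l) = algebraMap F _ (j l)
    rw [← hι']
    exact hres.1 (lam l) (cB l) rfl
  have hγint : IsIntegral R γ := IsIntegral.of_pow (Nat.pos_of_ne_zero hp0) (by
    rw [hγ, hev]; exact Subtype.prop _)
  obtain ⟨h, hh⟩ := hdesc γ hγint z hz0 hs
  -- the second root
  have hμ0 : μ ≠ 0 := by
    rintro rfl
    rw [map_zero, map_zero] at hμ
    exact zero_ne_one hμ
  set γ' : M := algebraMap R M y / γ with hγ'def
  have hγ'p : algebraMap _ M (lam μ) * γ' ^ p = F₂.eval₂ (cE lam M) (algebraMap R M t) := by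
    rw [hγ'def, div_pow, ← mul_div_assoc, ← hrel, hγ, mul_comm, mul_div_assoc, div_self, mul_one]
    rw [← hγ]; exact pow_ne_zero p hγ0
  have hγ'int : IsIntegral R γ' := by
    refine IsIntegral.of_pow (Nat.pos_of_ne_zero hp0) ?_
    have h1 : γ' ^ p = algebraMap _ M (lam μ)⁻¹ * F₂.eval₂ (cE lam M) (algebraMap R M t) := by
      rw [← hγ'p, ← mul_assoc, ← map_mul, inv_mul_cancel₀, map_one, one_mul]
      exact (_root_.map_ne_zero _).mpr hμ0
    rw [h1, hev]
    exact (hBk _).mul (Subtype.prop _)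
  have hsR : ∀ σ, ∀ r : R, s σ (algebraMap R M r) = algebraMap R M r := by
    intro σ r
    have h1 : algebraMap R M r = algebraMap K M (r : K) := rfl
    rw [h1, AlgEquiv.commutes]
  obtain ⟨h', hh'⟩ := hdesc γ' hγ'int z⁻¹ (inv_ne_zero hz0) (by
    intro σ hσ
    have hMσz : algebraMap (AlgebraicClosure k) M (σ z) ≠ 0 :=
      (_root_.map_ne_zero _).mpr ((_root_.map_ne_zero _).mpr hz0)
    have hsγ0 : s σ γ ≠ 0 := (_root_.map_ne_zero _).mpr hγ0
    have h1 := hs σ hσ
    rw [hγ'def, map_div₀, hsR, map_inv₀, map_inv₀, map_inv₀, div_mul_eq_mul_div, div_mul_eq_mul_div,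
      div_eq_div_iff hsγ0 hγ0]
    have hMz : algebraMap (AlgebraicClosure k) M z ≠ 0 := (_root_.map_ne_zero _).mpr hz0
    field_simp
    linear_combination -algebraMap R M y * h1)
  have hinj := (algebraMap F (AlgebraicClosure F)).injective
  have e1 : F₁.eval₂ j (η (q t)) = j c * h ^ p := by
    apply hinj
    rw [← hval, map_mul, map_pow, ← hι', ← hz, map_pow, ← mul_pow, ← hh, ← map_pow]
    congr 1
    apply Subtype.ext
    rw [← hev]
    exact hγ.symm
  have e2 : F₂.eval₂ j (η (q t)) = j μ / j c * h' ^ p := by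
    apply hinj
    have h1 : (⟨_, hBk (lam μ)⟩ : integralClosure R M) * ⟨γ', hγ'int⟩ ^ p =
        F₂.eval₂ cB (algebraMap R (integralClosure R M) t) := by
      apply Subtype.ext
      rw [← hev]
      exact hγ'p
    have h2 : ι' z ^ p = algebraMap F _ (j c) := by rw [← map_pow, hz, hι']
    have hjc : algebraMap F (AlgebraicClosure F) (j c) ≠ 0 :=
      (_root_.map_ne_zero _).mpr ((_root_.map_ne_zero _).mpr hc)
    rw [← hval, ← h1, map_mul, map_pow, hres.1 (lam μ) ⟨_, hBk (lam μ)⟩ rfl, hι', hh', map_mul,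
      map_div₀, map_pow, mul_pow, map_inv₀, inv_pow, h2]
    field_simp
  have e3 : F₁.eval₂ j (η (q t)) * F₂.eval₂ j (η (q t)) = j μ * η (q y) ^ p := by
    apply hinj
    have h1 : F₁.eval₂ cB (algebraMap R (integralClosure R M) t) *
        F₂.eval₂ cB (algebraMap R (integralClosure R M) t) =
        (⟨_, hBk (lam μ)⟩ : integralClosure R M) * algebraMap R _ y ^ p := by
      apply Subtype.ext
      rw [hev, hev] at hrel
      exact hrel
    have h2 := congrArg φ' h1
    rw [map_mul, hval, hval, map_mul, map_pow, hres.1 (lam μ) ⟨_, hBk (lam μ)⟩ rfl, hι', hφ'] at h2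
    rw [map_mul, map_mul, map_pow, h2]
  have hjc0 : j c ≠ 0 := (_root_.map_ne_zero _).mpr hc
  have hwc : w (j c) ≠ 0 := (Valuation.ne_zero_iff w).mpr hjc0
  rcases hloc _ _ e3 with ⟨u, hu, hwu⟩ | h3
  · have hwu0 : w u ^ p ≠ 0 := pow_ne_zero p ((Valuation.ne_zero_iff w).mpr hu)
    have hh0 : h ≠ 0 := by
      rintro rfl
      rw [e1, zero_pow hp0, mul_zero, map_zero] at hwu
      exact hwu0 hwu.symm
    refine ⟨u / h, div_ne_zero hu hh0, ?_⟩
    rw [map_div₀, div_pow, ← hwu, e1, map_mul, map_pow, mul_div_cancel_right₀]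
    exact pow_ne_zero p ((Valuation.ne_zero_iff w).mpr hh0)
  · have hh0 : h' ≠ 0 := by
      rintro rfl
      rw [e2, zero_pow hp0, mul_zero, map_zero] at h3
      exact zero_ne_one h3
    refine ⟨h', hh0, ?_⟩
    rw [e2, map_mul, map_pow, map_div₀, hμ, one_div, inv_mul_eq_one₀ hwc] at h3
    exact h3

end Pool.Agent.Lib.MP_2f3286_ag.LN
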