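import Pool.Agent.Lib.MP_2f3286_ag.GU.LClass
import Pool.Agent.Lib.MP_2f3286_ag.PA.CopQ

/-!
# A unit fixed by a section over `ℚ` has one value up to sign
-/

open IsDedekindDomain NumberField Polynomial

namespace Pool.Agent.Lib.MP_2f3286_ag.LN

universe u

/-- an element of a number field of degree one which is a unit at all places is `±1` -/
theorem sq_eq_one {k : Type u} [Field k] [NumberField k] (E : 𝓞 k ≃+* ℤ) (a : kˣ)
    (h : ∀ v : HeightOneSpectrum (𝓞 k), v.valuation k (a : k) = 1) : (a : k) ^ 2 = 1 := by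
  obtain ⟨b, hb⟩ := HeightOneSpectrum.mem_integers_of_valuation_le_one k (a : k) fun v => (h v).le
  obtain ⟨b', hb'⟩ := HeightOneSpectrum.mem_integers_of_valuation_le_one k ((a⁻¹ : kˣ) : k)
    fun v => by rw [Units.val_inv_eq_inv_val, map_inv₀, h v, inv_one]
  have h1 : b * b' = 1 := by
    apply FaithfulSMul.algebraMap_injective (𝓞 k) k
    rw [map_mul, hb, hb', map_one, Units.mul_inv]
  have h2 : E b * E b' = 1 := by rw [← map_mul, h1, map_one]
  have h3 : (E b) ^ 2 = 1 := by
    rcases Int.isUnit_iff.mp (IsUnit.of_mul_eq_one _ h2) with h4 | h4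
    · rw [h4]; rfl
    · rw [h4]; rfl
  have h4 : b ^ 2 = 1 := E.injective (by rw [map_pow, h3, map_one])
  rw [← hb, ← map_pow, h4, map_one]

/-- the values of a unit fixed by the section are `±α` -/
theorem unit_values {k : Type u} [Field k] [NumberField k] (hk : Module.finrank ℚ k = 1)
    {K : Type*} [Field K] [Algebra k K] (R : Subalgebra k K)
    {M : Type*} [Field M] [Algebra K M] [Algebra (AlgebraicClosure k) M] [Algebra k M]
    [IsScalarTower k K M] [IsScalarTower k (AlgebraicClosure k) M]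
    (s : Gal(AlgebraicClosure k/k) →* Gal(M/K)) (hs : Continuous s)
    (hsec : ∀ σ a, s σ (algebraMap (AlgebraicClosure k) M a) =
      algebraMap (AlgebraicClosure k) M (σ a))
    (ι : ∀ v : HeightOneSpectrum (𝓞 k),
      AlgebraicClosure k →ₐ[k] AlgebraicClosure (v.adicCompletion k))
    (φ : ∀ v : HeightOneSpectrum (𝓞 k),
      integralClosure R M →+* AlgebraicClosure (v.adicCompletion k))
    (hφ : ∀ v, Respects s (v.adicCompletion k)
      (ι v : _ →+* AlgebraicClosure (v.adicCompletion k)) (φ v))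
    (e : M) (he : IsIntegral R e) (he' : IsIntegral R e⁻¹) (he0 : e ≠ 0)
    (hfix : ∀ σ, s σ e = e) (hroots : ∀ n : ℕ, 1 ≤ n → ∃ b : M, b ^ n = e)
    (T : Finset (HeightOneSpectrum (𝓞 k))) (N : ℕ) (hN : 1 ≤ N)
    (hcont : ∀ v ∉ T, ∀ y z : v.adicCompletion k, φ v ⟨e, he⟩ = algebraMap _ _ y →
      Valued.v y = Valued.v z ^ N → Valued.v y = 1) :
    ∃ α : k, α ≠ 0 ∧ ∀ v, φ v ⟨e, he⟩ = ι v (algebraMap k _ α) ∨
      φ v ⟨e, he⟩ = -ι v (algebraMap k _ α) := by
  classical
  have hchar : ∀ v : HeightOneSpectrum (𝓞 k), CharZero (v.adicCompletion k) := fun v =>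
    charZero_of_injective_algebraMap (algebraMap k (v.adicCompletion k)).injective
  have hBk : ∀ a : AlgebraicClosure k, IsIntegral R (algebraMap (AlgebraicClosure k) M a) := by
    intro a
    have htow' : IsScalarTower k R M := IsScalarTower.of_algebraMap_eq fun x => by
      rw [IsScalarTower.algebraMap_apply k K M]; rfl
    have h1 : IsIntegral k a := Algebra.IsIntegral.isIntegral a
    have h2 : IsIntegral k (algebraMap (AlgebraicClosure k) M a) := h1.algebraMap
    exact h2.tower_top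
  obtain ⟨t, ht1, htn, htc⟩ := exists_roots_compatible hroots
  have htint : ∀ n, 1 ≤ n → IsIntegral R (t n) := fun n hn =>
    IsIntegral.of_pow hn (by rw [htn n hn]; exact he)
  have hRK : ∀ b : M, IsIntegral R b → IsIntegral K b := by
    intro b hb
    have htow : IsScalarTower R K M := IsScalarTower.of_algebraMap_eq fun x => rfl
    exact hb.tower_top
  obtain ⟨z, c, hz, hzσ, hζ, hcc⟩ := GU.exists_classes_L s hs hsec (⊥ : IntermediateField k (AlgebraicClosure k))
    (J := Unit) (fun _ => e) (fun _ => he0) (fun _ n => t n) (fun _ n hn => htn n hn)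
    (fun _ n m hn hm => htc n m hn hm) (fun _ n hn => hRK _ (htint n hn)) (fun σ _ _ => hfix σ)
  -- the classes as elements of `k`
  let B := IntermediateField.botEquiv k (AlgebraicClosure k)
  let G : ℕ → kˣ := fun n => Units.map (B : (⊥ : IntermediateField k (AlgebraicClosure k)) →* k) (c () n)
  have hG : ∀ n, 1 ≤ n → (z () n : AlgebraicClosure k) ^ n = algebraMap k _ (G n : k) := by
    intro n hn
    rw [hz () n hn]
    have h1 : algebraMap k (⊥ : IntermediateField k (AlgebraicClosure k)) (G n : k) = (c () n : _) := by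
      have h2 : B (algebraMap k _ (G n : k)) = (G n : k) := B.commutes _
      exact B.injective h2
    rw [← h1]
    rfl
  have hcompat : ∀ n m, 1 ≤ n → 1 ≤ m → ∃ y : kˣ, G (n * m) = G n * y ^ n := by
    intro n m hn hm
    obtain ⟨w, hw⟩ := hcc () n m hn hm
    exact ⟨Units.map (B : (⊥ : IntermediateField k (AlgebraicClosure k)) →* k) w, by
      simp only [G]; rw [hw, map_mul, map_pow]⟩
  -- the values
  have hval : ∀ v, ∃ y : v.adicCompletion k, algebraMap _ _ y = φ v ⟨e, he⟩ := by
    intro v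
    refine mem_of_fixed (F := v.adicCompletion k) (Fb := AlgebraicClosure (v.adicCompletion k)) ?_
    intro τ
    obtain ⟨σ, hσ⟩ := exists_restrict (ι v) τ
    exact ((hφ v).2 σ τ hσ ⟨e, he⟩ ⟨e, he⟩ (hfix σ).symm).symm
  choose y hy using hval
  have hy0 : ∀ v, y v ≠ 0 := by
    intro v h0
    have h1 := hy v
    rw [h0, map_zero] at h1
    have h2 : (⟨e, he⟩ * ⟨e⁻¹, he'⟩ : integralClosure R M) = 1 := Subtype.ext (mul_inv_cancel₀ he0)
    have h3 := congrArg (φ v) h2
    rw [map_mul, ← h1, zero_mul, map_one] at h3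
    exact zero_ne_one h3
  have hloc : ∀ v, ∀ n, 1 ≤ n → ∃ w : v.adicCompletion k,
      algebraMap k (v.adicCompletion k) (G n) * w ^ n = y v := by
    intro v n hn
    have hιz : ι v (z () n) ≠ 0 := (_root_.map_ne_zero _).mpr (z () n).ne_zero
    obtain ⟨w, hw⟩ := mem_of_fixed (F := v.adicCompletion k)
      (Fb := AlgebraicClosure (v.adicCompletion k)) (y := φ v ⟨t n, htint n hn⟩ / ι v (z () n)) (by
      intro τ
      obtain ⟨σ, hσ⟩ := exists_restrict (ι v) τ
      have hσm : σ ∈ (⊥ : IntermediateField k (AlgebraicClosure k)).fixingSubgroup := by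
        rw [IntermediateField.fixingSubgroup_bot]; exact Subgroup.mem_top σ
      obtain ⟨ζ, hζ'⟩ := hζ () n hn σ hσm
      have h1 := hzσ () n hn σ hσm ζ hζ'
      have hint : IsIntegral R (s σ (t n)) := by rw [hζ']; exact (hBk ζ).mul (htint n hn)
      have h2 := (hφ v).2 σ τ hσ ⟨t n, htint n hn⟩ ⟨s σ (t n), hint⟩ rfl
      have h3 : (⟨s σ (t n), hint⟩ : integralClosure R M) = ⟨_, hBk ζ⟩ * ⟨t n, htint n hn⟩ :=
        Subtype.ext hζ'
      have h4 := (hφ v).1 ζ ⟨_, hBk ζ⟩ rfl
      have hζ0 : ζ ≠ 0 := by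
        rintro rfl
        rw [zero_mul] at h1
        exact (z () n).ne_zero ((map_eq_zero _).mp h1)
      have hιζ : ι v ζ ≠ 0 := (_root_.map_ne_zero _).mpr hζ0
      rw [h3, map_mul, h4] at h2
      rw [map_div₀, ← h2, ← hσ, h1, map_mul]
      exact mul_div_mul_left _ _ hιζ)
    refine ⟨w, ?_⟩
    apply (algebraMap (v.adicCompletion k) (AlgebraicClosure (v.adicCompletion k))).injective
    rw [map_mul, map_pow, hw, hy, div_pow]
    have h1 : algebraMap (v.adicCompletion k) (AlgebraicClosure (v.adicCompletion k))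
        (algebraMap k (v.adicCompletion k) (G n)) = ι v (z () n) ^ n := by
      rw [← map_pow, hG n hn, AlgHom.commutes]
      rfl
    have h2 : (⟨t n, htint n hn⟩ : integralClosure R M) ^ n = ⟨e, he⟩ := Subtype.ext (htn n hn)
    rw [h1, mul_div_cancel₀ _ (pow_ne_zero n hιz), ← map_pow, h2]
  let T' : Finset (HeightOneSpectrum (𝓞 k)) := T ∪ (finite_val_ne_one (G N).ne_zero).toFinset
  have hy1 : ∀ v ∉ T', Valued.v (y v) = 1 := by
    intro v hv
    simp only [T', Finset.mem_union, Set.Finite.mem_toFinset, Set.mem_setOf_eq, not_or, not_not] at hv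
    obtain ⟨w, hw⟩ := hloc v N hN
    refine hcont v hv.1 _ w (hy v).symm ?_
    rw [← hw, map_mul, map_pow, val_alg, hv.2, one_mul]
  obtain ⟨α, hα⟩ := exists_alpha ∅ G hcompat y T' (fun v _ => hy0 v) hy1 (fun v _ n hn => hloc v n hn)
  obtain ⟨⟨E⟩, -⟩ := PA.exists_equiv_int hk
  refine ⟨α, α.ne_zero, fun v => ?_⟩
  have hαv : algebraMap k (v.adicCompletion k) (α : k) ≠ 0 := (_root_.map_ne_zero _).mpr α.ne_zero
  have h1 : (y v / algebraMap k (v.adicCompletion k) (α : k)) ^ 2 = 1 := by
    refine eq_one_of_divisible v (pow_ne_zero 2 (div_ne_zero (hy0 v) hαv)) fun n hn => ?_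
    obtain ⟨ε, hε, β, hβ⟩ := hα n hn
    obtain ⟨w, hw⟩ := hloc v n hn
    have hε2 : (ε : k) ^ 2 = 1 := by
      refine sq_eq_one E ε fun w' => ?_
      rw [Places.mem_Γ] at hε
      have h1 : w'.valuation k (ε : k) ≤ 1 := hε.1 w' (Finset.notMem_empty _)
      have h2 : w'.valuation k ((ε⁻¹ : kˣ) : k) ≤ 1 := hε.2 w' (Finset.notMem_empty _)
      refine le_antisymm h1 ?_
      have h3 : w'.valuation k (ε : k) * w'.valuation k ((ε⁻¹ : kˣ) : k) = 1 := by
        rw [← map_mul, Units.mul_inv, map_one]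
      rw [← h3]
      exact mul_le_of_le_one_right' h2
    refine ⟨(algebraMap k (v.adicCompletion k) (β : k) * w) ^ 2, ?_⟩
    rw [← hw, hβ, Units.val_mul, Units.val_mul, Units.val_pow_eq_pow_val, map_mul, map_mul, map_pow]
    have h4 : (algebraMap k (v.adicCompletion k) (ε : k)) ^ 2 = 1 := by
      rw [← map_pow, hε2, map_one]
    rw [div_pow, eq_div_iff (pow_ne_zero 2 hαv)]
    calc ((algebraMap k (v.adicCompletion k) (β : k) * w) ^ 2) ^ n *
          algebraMap k (v.adicCompletion k) (α : k) ^ 2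
        = algebraMap k (v.adicCompletion k) (α : k) ^ 2 * 1 *
          (algebraMap k (v.adicCompletion k) (β : k) ^ n * w ^ n) ^ 2 := by ring
      _ = (algebraMap k (v.adicCompletion k) (α : k) * algebraMap k (v.adicCompletion k) (ε : k) *
          algebraMap k (v.adicCompletion k) (β : k) ^ n * w ^ n) ^ 2 := by rw [← h4]; ring
  have h2 : algebraMap (v.adicCompletion k) (AlgebraicClosure (v.adicCompletion k))
      (algebraMap k (v.adicCompletion k) (α : k)) = ι v (algebraMap k _ (α : k)) := by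
    rw [AlgHom.commutes]
    rfl
  have h3 : y v ^ 2 = (algebraMap k (v.adicCompletion k) (α : k)) ^ 2 := by
    rw [div_pow, div_eq_one_iff_eq (pow_ne_zero 2 hαv)] at h1
    exact h1
  rw [← hy v, ← h2]
  rcases sq_eq_sq_iff_eq_or_eq_neg.mp h3 with h4 | h4
  · left; rw [h4]
  · right; rw [h4, map_neg]

end Pool.Agent.Lib.MP_2f3286_ag.LN
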