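import Pool.Agent.Lib.MP_2f3286_ag.LN.Ext
import Pool.Agent.Lib.MP_2f3286_ag.LN.UnitQ
import Pool.Agent.Lib.MP_2f3286_ag.Aux2
import Pool.Agent.Lib.MP_2f3286_ag.NormStage

/-!
# Two `p`-th roots with constant difference of the `p`-th powers: the local values
-/

open IsDedekindDomain NumberField Polynomial

namespace Pool.Agent.Lib.MP_2f3286_ag.LN

universe u

/-- a root of a monic polynomial with integral coefficients is integral -/
theorem val_root_le {F C Γ : Type*} [Field F] [Field C] [LinearOrderedCommGroupWithZero Γ]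
    (w : Valuation C Γ) (f : F →+* C) (P : F[X]) (hP : P.Monic) (hc : ∀ i, w (f (P.coeff i)) ≤ 1)
    (x : C) (hx : P.eval₂ f x = 0) : w x ≤ 1 := by
  by_contra hgt
  push Not at hgt
  have hx0 : w x ≠ 0 := fun h => by rw [h] at hgt; exact not_lt_zero hgt
  rw [eval₂_eq_sum_range, Finset.sum_range_succ, hP.coeff_natDegree, map_one, one_mul] at hx
  have h1 : w (∑ i ∈ Finset.range P.natDegree, f (P.coeff i) * x ^ i) < w x ^ P.natDegree := by
    refine Valuation.map_sum_lt _ (pow_ne_zero _ hx0) fun i hi => ?_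
    rw [map_mul, map_pow]
    exact lt_of_le_of_lt (mul_le_of_le_one_left' (hc i)) (pow_lt_pow_right₀ hgt (Finset.mem_range.mp hi))
  have h2 := Valuation.map_add_eq_of_lt_left w (x := x ^ P.natDegree)
    (y := ∑ i ∈ Finset.range P.natDegree, f (P.coeff i) * x ^ i) (by rw [map_pow]; exact h1)
  rw [add_comm, hx, map_zero, map_pow] at h2
  exact pow_ne_zero _ hx0 h2.symm

/-- `A` extends the valuation of `k_v` -/
def Ext {k : Type u} [Field k] [NumberField k] (v : HeightOneSpectrum (𝓞 k))
    (A : ValuationSubring (AlgebraicClosure (v.adicCompletion k))) : Prop :=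
  ∀ x : v.adicCompletion k, A.valuation (algebraMap _ _ x) ≤ 1 ↔ Valued.v x ≤ 1

theorem Ext.eq_one {k : Type u} [Field k] [NumberField k] {v : HeightOneSpectrum (𝓞 k)}
    {A : ValuationSubring (AlgebraicClosure (v.adicCompletion k))} (h : Ext v A)
    {x : v.adicCompletion k} : A.valuation (algebraMap _ _ x) = 1 ↔ Valued.v x = 1 := by
  rcases eq_or_ne x 0 with rfl | hx
  · rw [map_zero, map_zero, map_zero]
    exact ⟨fun h => absurd h zero_ne_one, fun h => absurd h zero_ne_one⟩
  have hw : A.valuation (algebraMap (v.adicCompletion k) (AlgebraicClosure (v.adicCompletion k)) x) ≠ 0 := by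
    rw [Valuation.ne_zero_iff, _root_.map_ne_zero]
    exact hx
  have hv : Valued.v x ≠ 0 := (Valuation.ne_zero_iff _).mpr hx
  have h1 := h x
  have h2 := h x⁻¹
  rw [map_inv₀, map_inv₀, map_inv₀, inv_le_one₀ (zero_lt_iff.mpr hw), inv_le_one₀ (zero_lt_iff.mpr hv)] at h2
  rw [le_antisymm_iff, le_antisymm_iff, h1, h2]

/-- constants are integral at almost all places -/
theorem const_le {k : Type u} [Field k] [NumberField k] (c : AlgebraicClosure k) :
    ∃ T : Finset (HeightOneSpectrum (𝓞 k)), ∀ v ∉ T,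
      ∀ (ι : AlgebraicClosure k →ₐ[k] AlgebraicClosure (v.adicCompletion k))
        (A : ValuationSubring (AlgebraicClosure (v.adicCompletion k))), Ext v A →
        A.valuation (ι c) ≤ 1 := by
  classical
  set P := minpoly k c with hP
  have hint : IsIntegral k c := Algebra.IsIntegral.isIntegral c
  have hco : ∀ i, ∃ T₀ : Finset (HeightOneSpectrum (𝓞 k)), ∀ w ∉ T₀, w.valuation k (P.coeff i) ≤ 1 := by
    intro i
    rcases eq_or_ne (P.coeff i) 0 with h0 | h0
    · exact ⟨∅, fun w _ => by rw [h0, map_zero]; exact zero_le_one⟩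
    · refine ⟨(finite_val_ne_one h0).toFinset, fun w hw => ?_⟩
      rw [Set.Finite.mem_toFinset, Set.mem_ofPred_eq, not_not] at hw
      exact hw.le
  choose T₀ hT₀ using hco
  refine ⟨(Finset.range (P.natDegree + 1)).biUnion T₀, fun v hv ι A hA => ?_⟩
  simp only [Finset.mem_biUnion, not_exists, not_and] at hv
  refine val_root_le A.valuation (algebraMap k _) P (minpoly.monic hint) (fun i => ?_) (ι c) ?_
  · have h1 : algebraMap k (AlgebraicClosure (v.adicCompletion k)) (P.coeff i) =
        algebraMap _ _ (algebraMap k (v.adicCompletion k) (P.coeff i)) :=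
      IsScalarTower.algebraMap_apply _ _ _ _
    rw [h1, hA, val_alg]
    rcases Nat.lt_or_ge P.natDegree i with h2 | h2
    · rw [coeff_eq_zero_of_natDegree_lt h2, map_zero]; exact zero_le_one
    · exact hT₀ i v (hv i (Finset.mem_range.mpr (by omega)))
  · rw [← aeval_def, aeval_algHom_apply, hP, minpoly.aeval, map_zero]

/-- nonzero constants are units at almost all places -/
theorem const_unit {k : Type u} [Field k] [NumberField k] (c : AlgebraicClosure k) (hc : c ≠ 0) :
    ∃ T : Finset (HeightOneSpectrum (𝓞 k)), ∀ v ∉ T,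
      ∀ (ι : AlgebraicClosure k →ₐ[k] AlgebraicClosure (v.adicCompletion k))
        (A : ValuationSubring (AlgebraicClosure (v.adicCompletion k))), Ext v A →
        A.valuation (ι c) = 1 := by
  classical
  obtain ⟨T₁, h1⟩ := const_le c
  obtain ⟨T₂, h2⟩ := const_le c⁻¹
  refine ⟨T₁ ∪ T₂, fun v hv ι A hA => ?_⟩
  rw [Finset.mem_union, not_or] at hv
  have h3 := h1 v hv.1 ι A hA
  have h4 := h2 v hv.2 ι A hA
  have h5 : A.valuation (ι c) ≠ 0 := by
    rw [Valuation.ne_zero_iff, _root_.map_ne_zero]
    exact hc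
  rw [map_inv₀, map_inv₀, inv_le_one₀ (zero_lt_iff.mpr h5)] at h4
  exact le_antisymm h3 h4

section

variable {k : Type u} [Field k] [NumberField k]
    {K : Type*} [Field K] [Algebra k K]
    (R : Subalgebra k K)
    {M : Type*} [Field M] [Algebra K M]
    [Algebra (AlgebraicClosure k) M] [Algebra k M]
    [IsScalarTower k K M] [IsScalarTower k (AlgebraicClosure k) M]

/-- the local values of the unit -/
theorem contact_e (s : Gal(AlgebraicClosure k/k) →* Gal(M/K))
    (ι : ∀ v : HeightOneSpectrum (𝓞 k),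
      AlgebraicClosure k →ₐ[k] AlgebraicClosure (v.adicCompletion k))
    (φ : ∀ v : HeightOneSpectrum (𝓞 k),
      integralClosure R M →+* AlgebraicClosure (v.adicCompletion k))
    (hφ : ∀ v, Respects s (v.adicCompletion k)
      (ι v : _ →+* AlgebraicClosure (v.adicCompletion k)) (φ v))
    {p : ℕ} (hp : p.Prime) (g₁ g₂ : integralClosure R M) (d : AlgebraicClosure k) (hd : d ≠ 0)
    (hgd : (g₁ : M) ^ p - (g₂ : M) ^ p = algebraMap _ M d)
    (r : R) (c₁ θ : AlgebraicClosure k) (hc₁ : c₁ ≠ 0)
    (hr₁ : (g₁ : M) ^ p = algebraMap _ M c₁ * (algebraMap R M r - algebraMap _ M θ))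
    (κ : AlgebraicClosure k) (hκ : κ ≠ 0) (n : ℕ) (hn : 1 ≤ n)
    (e : integralClosure R M) (he : (e : M) = algebraMap _ M κ * ((g₁ : M) - g₂) ^ n)
    (T : Finset (HeightOneSpectrum (𝓞 k))) (N : ℕ)
    (hint : ∀ v ∉ T, ∀ y z : v.adicCompletion k,
      φ v (algebraMap R (integralClosure R M) r) = algebraMap _ _ y →
      Valued.v y = Valued.v z ^ N → Valued.v y ≤ 1) :
    ∃ T' : Finset (HeightOneSpectrum (𝓞 k)), ∀ v ∉ T', ∀ y z : v.adicCompletion k,
      φ v e = algebraMap _ _ y → Valued.v y = Valued.v z ^ (N * (p - 1) * n) → Valued.v y = 1 := by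
  classical
  have hBk : ∀ a : AlgebraicClosure k, IsIntegral R (algebraMap (AlgebraicClosure k) M a) := by
    intro a
    have htow' : IsScalarTower k R M := IsScalarTower.of_algebraMap_eq fun x => by
      rw [IsScalarTower.algebraMap_apply k K M]; rfl
    have h1 : IsIntegral k a := Algebra.IsIntegral.isIntegral a
    have h2 : IsIntegral k (algebraMap (AlgebraicClosure k) M a) := h1.algebraMap
    exact h2.tower_top
  have hcharA : CharZero (AlgebraicClosure k) :=
    charZero_of_injective_algebraMap (algebraMap k (AlgebraicClosure k)).injective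
  have hp0 : (p : AlgebraicClosure k) ≠ 0 := Nat.cast_ne_zero.mpr hp.ne_zero
  obtain ⟨T₁, h1⟩ := const_unit d hd
  obtain ⟨T₂, h2⟩ := const_unit c₁ hc₁
  obtain ⟨T₃, h3⟩ := const_unit κ hκ
  obtain ⟨T₄, h4⟩ := const_le θ
  obtain ⟨T₅, h5⟩ := const_unit (p : AlgebraicClosure k) hp0
  refine ⟨T ∪ T₁ ∪ T₂ ∪ T₃ ∪ T₄ ∪ T₅, fun v hv y z hy hyz => ?_⟩
  simp only [Finset.mem_union, not_or] at hv
  obtain ⟨⟨⟨⟨⟨hvT, hv1⟩, hv2⟩, hv3⟩, hv4⟩, hv5⟩ := hv
  obtain ⟨A, hA⟩ := exists_ext (Valued.v : Valuation (v.adicCompletion k) _)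
    (algebraMap (v.adicCompletion k) (AlgebraicClosure (v.adicCompletion k)))
  have hA' : Ext v A := hA
  have hchar : CharZero (v.adicCompletion k) :=
    charZero_of_injective_algebraMap (algebraMap k (v.adicCompletion k)).injective
  have hchar' : CharZero (AlgebraicClosure (v.adicCompletion k)) :=
    charZero_of_injective_algebraMap
      (algebraMap (v.adicCompletion k) (AlgebraicClosure (v.adicCompletion k))).injective
  set w := A.valuation with hw
  have k1 := h1 v hv1 (ι v) A hA'
  have k2 := h2 v hv2 (ι v) A hA'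
  have k3 := h3 v hv3 (ι v) A hA'
  have k4 := h4 v hv4 (ι v) A hA'
  have k5 := h5 v hv5 (ι v) A hA'
  rw [map_natCast] at k5
  -- the values
  have hconst : ∀ a : AlgebraicClosure k, φ v ⟨_, hBk a⟩ = ι v a := fun a => (hφ v).1 a ⟨_, hBk a⟩ rfl
  have e1 : φ v g₁ ^ p - φ v g₂ ^ p = ι v d := by
    rw [← hconst, ← map_pow, ← map_pow, ← map_sub]
    congr 1
    exact Subtype.ext hgd
  have e2 : φ v g₁ ^ p = ι v c₁ * (φ v (algebraMap R _ r) - ι v θ) := by
    rw [← hconst, ← hconst, ← map_pow, ← map_sub, ← map_mul]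
    congr 1
    exact Subtype.ext hr₁
  have e3 : φ v e = ι v κ * (φ v g₁ - φ v g₂) ^ n := by
    rw [← hconst, ← map_sub, ← map_pow, ← map_mul]
    congr 1
    exact Subtype.ext he
  obtain ⟨x, hx⟩ := exists_local_point R s v (ι v) (φ v) (hφ v)
  have hrx : φ v (algebraMap R _ r) = algebraMap _ _ (x r) := (hx r).symm
  have hne : NeZero ((p : ℕ) : AlgebraicClosure (v.adicCompletion k)) :=
    ⟨Nat.cast_ne_zero.mpr hp.ne_zero⟩
  obtain ⟨ζ, hζ⟩ := HasEnoughRootsOfUnity.exists_primitiveRoot (AlgebraicClosure (v.adicCompletion k)) p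
  obtain ⟨hle, hgt⟩ := val_norm w hp hζ k5 k1 e1
  have hwe : w (algebraMap _ _ y) = w (φ v g₁ - φ v g₂) ^ n := by
    rw [← hy, e3, map_mul, map_pow, k3, one_mul]
  have hp1 : p - 1 ≠ 0 := by have := hp.two_le; omega
  have hn0 : n ≠ 0 := by omega
  rcases le_or_gt (Valued.v (x r)) 1 with hxr | hxr
  · -- the integral case
    have h6 : w (φ v g₁) ≤ 1 := by
      have h7 : w (φ v g₁) ^ p ≤ 1 := by
        rw [← map_pow, e2, map_mul, k2, one_mul]
        refine (Valuation.map_sub w _ _).trans (max_le ?_ k4)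
        rw [hrx]
        exact (hA _).mpr hxr
      exact (pow_le_one_iff hp.ne_zero).mp h7
    rw [hle h6, one_pow] at hwe
    exact hA'.eq_one.mp hwe
  · -- the case of a pole
    exfalso
    have hwr : 1 < w (φ v (algebraMap R _ r)) := by
      rw [hrx]
      by_contra hcon
      push Not at hcon
      exact absurd ((hA _).mp hcon) (not_le.mpr hxr)
    have h6 : w (φ v g₁) ^ p = w (φ v (algebraMap R _ r)) := by
      rw [← map_pow, e2, map_mul, k2, one_mul]
      exact Valuation.map_sub_eq_of_lt_left w (lt_of_le_of_lt k4 hwr)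
    have h7 : 1 < w (φ v g₁) := by
      by_contra hcon
      push Not at hcon
      rw [← h6] at hwr
      exact absurd hwr (not_lt.mpr (pow_le_one' hcon p))
    have hwg0 : w (φ v g₁) ≠ 0 := fun h => by rw [h] at h7; exact not_lt_zero h7
    -- compare valuations on `k_v`
    have hcmp : ∀ a b : v.adicCompletion k, Valued.v a = Valued.v b →
        w (algebraMap _ _ a) = w (algebraMap _ _ b) := by
      intro a b hab
      rcases eq_or_ne b 0 with rfl | hb
      · rw [map_zero, map_eq_zero] at hab
        rw [hab]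
      · have hb' : w (algebraMap (v.adicCompletion k) (AlgebraicClosure (v.adicCompletion k)) b) ≠ 0 := by
          rw [Valuation.ne_zero_iff, _root_.map_ne_zero]
          exact hb
        have h8 : Valued.v (a / b) = 1 := by
          rw [map_div₀, hab, div_self]
          exact (Valuation.ne_zero_iff _).mpr hb
        have h9 := hA'.eq_one.mpr h8
        rw [map_div₀, map_div₀, div_eq_one_iff_eq hb'] at h9
        exact h9
    have hcmp' : ∀ a b : v.adicCompletion k, w (algebraMap _ _ a) = w (algebraMap _ _ b) →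
        Valued.v a = Valued.v b := by
      intro a b hab
      rcases eq_or_ne b 0 with rfl | hb
      · rw [map_zero, map_zero, Valuation.zero_iff, _root_.map_eq_zero] at hab
        rw [hab]
      · have hb' : w (algebraMap (v.adicCompletion k) (AlgebraicClosure (v.adicCompletion k)) b) ≠ 0 := by
          rw [Valuation.ne_zero_iff, _root_.map_ne_zero]
          exact hb
        have h9 : w (algebraMap _ _ (a / b)) = 1 := by
          rw [map_div₀, map_div₀, hab, div_self hb']
        have h8 := hA'.eq_one.mp h9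
        rw [map_div₀, div_eq_one_iff_eq ((Valuation.ne_zero_iff _).mpr hb)] at h8
        exact h8
    set W := w (algebraMap (v.adicCompletion k) (AlgebraicClosure (v.adicCompletion k)) z) with hW
    have h8 : w (φ v g₁ - φ v g₂) ^ n = W ^ (N * (p - 1) * n) := by
      rw [← hwe]
      have h9 : Valued.v y = Valued.v (z ^ (N * (p - 1) * n)) := by rw [map_pow]; exact hyz
      rw [hcmp _ _ h9, map_pow, map_pow]
    have h9 : w (φ v g₁ - φ v g₂) = W ^ (N * (p - 1)) := by
      refine pow_inj hn0 ?_
      rw [h8, ← pow_mul]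
    rcases hgt h7 with h10 | h10
    · have h11 : w (φ v (algebraMap R _ r)) = w (algebraMap _ _ ((z ^ ((p - 1) * p)) ^ N)) := by
        rw [← h6, ← h10, h9, map_pow, map_pow, map_pow, map_pow, ← pow_mul, ← pow_mul, ← hW]
        congr 1
        ring
      rw [hrx] at h11
      have h12 := hcmp' _ _ h11
      rw [map_pow] at h12
      have h13 := hint v hvT (x r) _ hrx h12
      exact absurd hxr (not_lt.mpr h13)
    · have h11 : W ^ N * w (φ v g₁) = 1 := by
        refine pow_inj hp1 ?_
        rw [one_pow, mul_pow, ← pow_mul, ← h9, h10]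
      have hW0 : W ^ N ≠ 0 := by
        intro h
        rw [h, zero_mul] at h11
        exact zero_ne_one h11
      have h12 : w (φ v (algebraMap R _ r)) = w (algebraMap _ _ ((z⁻¹ ^ p) ^ N)) := by
        have h13 : w (φ v g₁) = (W ^ N)⁻¹ := eq_inv_of_mul_eq_one_right h11
        rw [← h6, h13, map_pow, map_pow, map_pow, map_pow, map_inv₀, map_inv₀, ← hW, inv_pow, inv_pow,
          inv_pow, ← pow_mul, ← pow_mul, mul_comm]
      rw [hrx] at h12
      have h13 := hcmp' _ _ h12
      rw [map_pow] at h13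
      have h14 := hint v hvT (x r) _ hrx h13
      exact absurd hxr (not_lt.mpr h14)

end

end Pool.Agent.Lib.MP_2f3286_ag.LN
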