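import Pool.Agent.Lib.MP_2f3286_ag.LN.Core
import Pool.Agent.Lib.MP_2f3286_ag.Full.FullFinal2

/-!
# Two `p`-th roots with constant difference of the `p`-th powers: the criterion
-/

open IsDedekindDomain NumberField Polynomial

namespace Pool.Agent.Lib.MP_2f3286_ag.LN

universe u v

/-- a polynomial over `k` vanishing at the values -/
theorem exists_chi {k kb : Type*} [Field k] [Field kb] [CharZero kb] [Algebra k kb] [IsAlgClosed kb]
    [Algebra.IsAlgebraic k kb] {p : ℕ} (hp : 2 ≤ p) (c₁ θ d g : kb) (hc₁ : c₁ ≠ 0) (hg : g ≠ 0)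
    (D : ℕ) (hD : 0 < D) :
    ∃ χ : k[X], χ ≠ 0 ∧ ∀ (C : Type v) (_ : Field C) (ι : kb →+* C) (e t r : C),
      e ^ D = ι g → (t + e) ^ p - t ^ p = ι d → (t + e) ^ p = ι c₁ * (r - ι θ) →
      χ.eval₂ (ι.comp (algebraMap k kb)) r = 0 := by
  classical
  let Z : Finset kb := (Polynomial.X ^ D - C g : kb[X]).roots.toFinset
  let Q : kb → kb[X] := fun ε => (X + C ε) ^ p - X ^ p - C d
  have hQ0 : ∀ ε, ε ≠ 0 → Q ε ≠ 0 := by
    intro ε hε h
    have h1 := congrArg (fun P : kb[X] => P.coeff (p - 1)) h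
    simp only [Q, coeff_sub, coeff_zero] at h1
    rw [coeff_X_add_C_pow, coeff_X_pow, if_neg (by omega), coeff_C, if_neg (by omega), sub_zero,
      sub_zero] at h1
    rcases mul_eq_zero.mp h1 with h2 | h2
    · exact hε (pow_eq_zero_iff (by omega) |>.mp h2)
    · rw [Nat.cast_eq_zero, Nat.choose_eq_zero_iff] at h2
      omega
  refine ⟨∏ ε ∈ Z, ∏ η ∈ (Q ε).roots.toFinset, minpoly k ((η + ε) ^ p / c₁ + θ), ?_,
    fun Ω _ ι e t r he ht hr => ?_⟩
  · refine Finset.prod_ne_zero_iff.mpr fun ε _ => Finset.prod_ne_zero_iff.mpr fun η _ => ?_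
    exact minpoly.ne_zero (Algebra.IsIntegral.isIntegral _)
  · have h1 : (Polynomial.X ^ D - C g : kb[X]).eval₂ ι e = 0 := by
      rw [eval₂_sub, eval₂_pow, eval₂_X, eval₂_C, he, sub_self]
    obtain ⟨ε, hε, rfl⟩ := root_mem ι (X_pow_sub_C_ne_zero hD _) h1
    have hε0 : ε ≠ 0 := by
      rintro rfl
      rw [map_zero, zero_pow hD.ne'] at he
      exact hg ((map_eq_zero ι).mp he.symm)
    have h2 : (Q ε).eval₂ ι t = 0 := by
      simp only [Q]
      rw [eval₂_sub, eval₂_sub, eval₂_pow, eval₂_add, eval₂_X, eval₂_C, eval₂_pow, eval₂_X, eval₂_C, ht,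
        sub_self]
    obtain ⟨η, hη, rfl⟩ := root_mem ι (hQ0 ε hε0) h2
    have h3 : r = ι ((η + ε) ^ p / c₁ + θ) := by
      have h4 : ι c₁ ≠ 0 := (_root_.map_ne_zero ι).mpr hc₁
      rw [map_add, map_div₀, map_pow, map_add, hr, mul_div_cancel_left₀ _ h4, sub_add_cancel]
    have hεZ : ε ∈ Z := by
      rw [Multiset.mem_toFinset, mem_roots (X_pow_sub_C_ne_zero hD _)]
      exact hε
    have hηQ : η ∈ (Q ε).roots.toFinset := by
      rw [Multiset.mem_toFinset, mem_roots (hQ0 ε hε0)]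
      exact hη
    rw [h3, ← hom_eval₂, ← aeval_def, map_prod, Finset.prod_eq_zero hεZ, map_zero]
    rw [map_prod, Finset.prod_eq_zero hηQ]
    exact minpoly.aeval k _

section

variable {k : Type u} [Field k] [NumberField k]
    {K : Type*} [Field K] [Algebra k K]
    (R : Subalgebra k K)
    {M : Type*} [Field M] [Algebra K M]
    [Algebra (AlgebraicClosure k) M] [Algebra k M]
    [IsScalarTower k K M] [IsScalarTower k (AlgebraicClosure k) M]

omit [NumberField k] [Algebra (AlgebraicClosure k) M] [Algebra k M]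
    [IsScalarTower k K M] [IsScalarTower k (AlgebraicClosure k) M] in
/-- `g₁ - ζ g₂` is a unit -/
theorem unit_of_norm {p : ℕ} (hp : 0 < p) {ζ : M} (hζ : IsPrimitiveRoot ζ p)
    (hζint : ∀ z : M, z ^ p = 1 → IsIntegral R z) (g₁ g₂ d : M) (hd : d ≠ 0)
    (hdint : IsIntegral R d⁻¹) (h1 : IsIntegral R g₁) (h2 : IsIntegral R g₂)
    (h : g₁ ^ p - g₂ ^ p = d) (z : M) (hz : z ^ p = 1) :
    IsIntegral R (g₁ - z * g₂) ∧ IsIntegral R (g₁ - z * g₂)⁻¹ ∧ g₁ - z * g₂ ≠ 0 := by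
  classical
  have hprod := hζ.pow_sub_pow_eq_prod_sub_mul g₁ g₂ hp
  have hmem : z ∈ nthRootsFinset p (1 : M) := by
    rw [mem_nthRootsFinset hp]
    exact hz
  rw [← Finset.mul_prod_erase _ _ hmem, h] at hprod
  have hint : ∀ y : M, y ^ p = 1 → IsIntegral R (g₁ - y * g₂) := fun y hy => h1.sub ((hζint y hy).mul h2)
  have hne : g₁ - z * g₂ ≠ 0 := by
    intro h0
    rw [h0, zero_mul] at hprod
    exact hd hprod
  refine ⟨hint z hz, ?_, hne⟩
  have h3 : (g₁ - z * g₂)⁻¹ = d⁻¹ * ∏ x ∈ (nthRootsFinset p (1 : M)).erase z, (g₁ - x * g₂) := by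
    rw [inv_eq_iff_eq_inv, mul_inv, inv_inv]
    rw [hprod, mul_assoc, mul_inv_cancel₀, mul_one]
    intro h0
    rw [h0, mul_zero] at hprod
    exact hd hprod
  rw [h3]
  refine hdint.mul (IsIntegral.prod _ fun x hx => ?_)
  rw [Finset.mem_erase, mem_nthRootsFinset hp] at hx
  exact hint x hx.2

/-- the criterion -/
theorem core (hk : Module.finrank ℚ k = 1) (hmax : Pt.IsRadClosed R M (AlgebraicClosure k))
    (s : Gal(AlgebraicClosure k/k) →* Gal(M/K)) (hs : Continuous s)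
    (hsec : ∀ σ a, s σ (algebraMap (AlgebraicClosure k) M a) =
      algebraMap (AlgebraicClosure k) M (σ a))
    (ι : ∀ v : HeightOneSpectrum (𝓞 k),
      AlgebraicClosure k →ₐ[k] AlgebraicClosure (v.adicCompletion k))
    (φ : ∀ v : HeightOneSpectrum (𝓞 k),
      integralClosure R M →+* AlgebraicClosure (v.adicCompletion k))
    (hφ : ∀ v, Respects s (v.adicCompletion k)
      (ι v : _ →+* AlgebraicClosure (v.adicCompletion k)) (φ v))
    {p : ℕ} (hp : p.Prime) (g₁ g₂ : integralClosure R M) (d : AlgebraicClosure k) (hd : d ≠ 0)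
    (hgd : (g₁ : M) ^ p - (g₂ : M) ^ p = algebraMap _ M d)
    (r : R) (c₁ θ : AlgebraicClosure k) (hc₁ : c₁ ≠ 0)
    (hr₁ : (g₁ : M) ^ p = algebraMap _ M c₁ * (algebraMap R M r - algebraMap _ M θ))
    (κ : AlgebraicClosure k) (hκ : κ ≠ 0) (n : ℕ) (hn : 1 ≤ n)
    (hfix : ∀ σ, s σ (algebraMap _ M κ * ((g₁ : M) - g₂) ^ n) = algebraMap _ M κ * ((g₁ : M) - g₂) ^ n)
    (T : Finset (HeightOneSpectrum (𝓞 k))) (N : ℕ) (hN : 1 ≤ N)
    (hint : ∀ v ∉ T, ∀ y z : v.adicCompletion k,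
      φ v (algebraMap R (integralClosure R M) r) = algebraMap _ _ y →
      Valued.v y = Valued.v z ^ N → Valued.v y ≤ 1) :
    ∃ χ : k[X], χ ≠ 0 ∧ ∀ v, φ v (algebraMap R (integralClosure R M) (aeval r χ)) = 0 := by
  classical
  have hBk : ∀ a : AlgebraicClosure k, IsIntegral R (algebraMap (AlgebraicClosure k) M a) := by
    intro a
    have htow' : IsScalarTower k R M := IsScalarTower.of_algebraMap_eq fun x => by
      rw [IsScalarTower.algebraMap_apply k K M]; rfl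
    have h1 : IsIntegral k a := Algebra.IsIntegral.isIntegral a
    have h2 : IsIntegral k (algebraMap (AlgebraicClosure k) M a) := h1.algebraMap
    exact h2.tower_top
  have hcharA : CharZero (AlgebraicClosure k) :=
    charZero_of_injective_algebraMap (algebraMap k (AlgebraicClosure k)).injective
  have hcharM : CharZero M := charZero_of_injective_algebraMap (algebraMap (AlgebraicClosure k) M).injective
  have hp0 : (p : AlgebraicClosure k) ≠ 0 := Nat.cast_ne_zero.mpr hp.ne_zero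
  have hne : NeZero ((p : ℕ) : AlgebraicClosure k) := ⟨hp0⟩
  obtain ⟨ζ₀, hζ₀⟩ := HasEnoughRootsOfUnity.exists_primitiveRoot (AlgebraicClosure k) p
  have hζ : IsPrimitiveRoot (algebraMap (AlgebraicClosure k) M ζ₀) p :=
    hζ₀.map_of_injective (algebraMap (AlgebraicClosure k) M).injective
  have hroot : ∀ z : M, z ^ p = 1 → IsIntegral R z := by
    intro z hz
    exact IsIntegral.of_pow hp.pos (by rw [hz]; exact isIntegral_one)
  have hMd : algebraMap (AlgebraicClosure k) M d ≠ 0 := (_root_.map_ne_zero _).mpr hd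
  have hMκ : algebraMap (AlgebraicClosure k) M κ ≠ 0 := (_root_.map_ne_zero _).mpr hκ
  obtain ⟨u1, u2, u3⟩ := unit_of_norm R hp.pos hζ hroot (g₁ : M) g₂ _ hMd
    (by rw [← map_inv₀]; exact hBk _) g₁.2 g₂.2 hgd 1 (one_pow p)
  rw [one_mul] at u1 u2 u3
  -- the unit
  set e : M := algebraMap _ M κ * ((g₁ : M) - g₂) ^ n with hedef
  have he : IsIntegral R e := (hBk κ).mul (u1.pow n)
  have he' : IsIntegral R e⁻¹ := by
    rw [hedef, mul_inv, ← map_inv₀, ← inv_pow]
    exact (hBk _).mul (u2.pow n)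
  have he0 : e ≠ 0 := mul_ne_zero hMκ (pow_ne_zero n u3)
  obtain ⟨T', hT'⟩ := contact_e R s ι φ hφ hp g₁ g₂ d hd hgd r c₁ θ hc₁ hr₁ κ hκ n hn ⟨e, he⟩ rfl T N hint
  have hN' : 1 ≤ N * (p - 1) * n := by
    have h2 := hp.two_le
    exact Nat.mul_pos (Nat.mul_pos hN (by omega)) hn
  obtain ⟨α, hα0, hα⟩ := unit_values hk R s hs hsec ι φ hφ e he he' he0 hfix
    (fun n hn => Full.root_of_unit hmax _ he he' n hn) T' _ hN' hT'
  set α' : AlgebraicClosure k := algebraMap k _ α with hα'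
  have hα'0 : α' ≠ 0 := (_root_.map_ne_zero _).mpr hα0
  obtain ⟨χ, hχ0, hχ⟩ := exists_chi.{u} (k := k) (kb := AlgebraicClosure k) hp.two_le c₁ θ d (α' ^ 2 / κ ^ 2) hc₁
    (div_ne_zero (pow_ne_zero 2 hα'0) (pow_ne_zero 2 hκ)) (n * 2) (by omega)
  refine ⟨χ, hχ0, fun v => ?_⟩
  have hconst : ∀ a : AlgebraicClosure k, φ v ⟨_, hBk a⟩ = ι v a := fun a => (hφ v).1 a ⟨_, hBk a⟩ rfl
  have e1 : φ v g₁ ^ p - φ v g₂ ^ p = ι v d := by
    rw [← hconst, ← map_pow, ← map_pow, ← map_sub]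
    congr 1
    exact Subtype.ext hgd
  have e2 : φ v g₁ ^ p = ι v c₁ * (φ v (algebraMap R _ r) - ι v θ) := by
    rw [← hconst, ← hconst, ← map_pow, ← map_sub, ← map_mul]
    congr 1
    exact Subtype.ext hr₁
  have e3 : φ v ⟨e, he⟩ = ι v κ * (φ v g₁ - φ v g₂) ^ n := by
    rw [← hconst, ← map_sub, ← map_pow, ← map_mul]
    congr 1
  have e4 : (φ v ⟨e, he⟩) ^ 2 = ι v α' ^ 2 := by
    rcases hα v with h | h
    · rw [h]
    · rw [h]; exact neg_sq _
  have hικ : ι v κ ≠ 0 := (_root_.map_ne_zero _).mpr hκ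
  obtain ⟨x, hx⟩ := exists_local_point R s v (ι v) (φ v) (hφ v)
  have h1 := hχ (AlgebraicClosure (v.adicCompletion k)) inferInstance (ι v : _ →+* _)
    (φ v g₁ - φ v g₂) (φ v g₂) (φ v (algebraMap R _ r)) (by
      change (φ v g₁ - φ v g₂) ^ (n * 2) = ι v (α' ^ 2 / κ ^ 2)
      rw [map_div₀, map_pow, map_pow, eq_div_iff (pow_ne_zero 2 hικ), ← e4, e3]
      ring) (by
      change (φ v g₂ + (φ v g₁ - φ v g₂)) ^ p - φ v g₂ ^ p = ι v d
      rw [add_sub_cancel, e1]) (by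
      change (φ v g₂ + (φ v g₁ - φ v g₂)) ^ p = ι v c₁ * (φ v (algebraMap R _ r) - ι v θ)
      rw [add_sub_cancel, e2])
  rw [← hx, ← aeval_algHom_apply, aeval_def, hom_eval₂, hx]
  have h2 : (algebraMap (v.adicCompletion k) (AlgebraicClosure (v.adicCompletion k))).comp
      (algebraMap k (v.adicCompletion k)) =
      ((ι v : AlgebraicClosure k →+* AlgebraicClosure (v.adicCompletion k))).comp
        (algebraMap k (AlgebraicClosure k)) := by
    ext a
    exact ((ι v).commutes a).symm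
  rw [h2]
  exact h1

end

end Pool.Agent.Lib.MP_2f3286_ag.LN
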