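import Mathlib

/-!
# Extension of a valuation to a larger field, and the norm form `g₁ ^ p - g₂ ^ p`
-/

open Polynomial

namespace Pool.Agent.Lib.MP_2f3286_ag.LN

/-- a valuation extends to every larger field -/
theorem exists_ext {F C Γ : Type*} [Field F] [Field C] [LinearOrderedCommGroupWithZero Γ]
    (v : Valuation F Γ) (f : F →+* C) :
    ∃ A : ValuationSubring C, ∀ x : F, A.valuation (f x) ≤ 1 ↔ v x ≤ 1 := by
  have hloc : IsLocalRing v.integer := by
    have : IsLocalRing v.valuationSubring := inferInstance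
    exact this
  obtain ⟨A, h, hl⟩ := IsLocalRing.exists_factor_valuationRing (R := v.integer) (f.comp v.integer.subtype)
  refine ⟨A, fun x => ?_⟩
  rw [ValuationSubring.valuation_le_one_iff]
  constructor
  · intro hx
    by_contra hgt
    push Not at hgt
    have hx0 : x ≠ 0 := by
      rintro rfl
      rw [map_zero] at hgt
      exact not_lt_zero hgt
    have hvx : v x ≠ 0 := (Valuation.ne_zero_iff v).mpr hx0
    have hxi : v x⁻¹ < 1 := by
      rw [map_inv₀]
      exact inv_lt_one_of_one_lt₀ hgt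
    let y : v.integer := ⟨x⁻¹, hxi.le⟩
    have h1 : IsUnit ((f.comp v.integer.subtype).codRestrict A.toSubring h y) := by
      refine IsUnit.of_mul_eq_one ⟨f x, hx⟩ (Subtype.ext ?_)
      change f x⁻¹ * f x = 1
      rw [← map_mul, inv_mul_cancel₀ hx0, map_one]
    have h2 : IsUnit y := hl.map_nonunit y h1
    obtain ⟨z, hz⟩ := h2.exists_right_inv
    have h3 : x⁻¹ * (z : F) = 1 := congrArg Subtype.val hz
    have h4 : v x⁻¹ * v (z : F) = 1 := by rw [← map_mul, h3, map_one]
    have h5 : v x⁻¹ * v (z : F) < 1 := mul_lt_one_of_lt_of_le hxi z.2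
    exact absurd h4 h5.ne
  · intro hx
    exact h ⟨x, hx⟩

section

variable {C Γ : Type*} [Field C] [LinearOrderedCommGroupWithZero Γ] (w : Valuation C Γ)

theorem pow_inj {a b : Γ} {n : ℕ} (hn : n ≠ 0) (h : a ^ n = b ^ n) : a = b :=
  (pow_left_inj₀ zero_le zero_le hn).mp h

/-- roots of unity have valuation `1` -/
theorem val_root_one {ζ : C} {n : ℕ} (hn : n ≠ 0) (h : ζ ^ n = 1) : w ζ = 1 := by
  refine pow_inj hn ?_
  rw [← map_pow, h, map_one, one_pow]

/-- `1 - ζ` is a unit away from `p` -/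
theorem val_one_sub {ζ : C} {p : ℕ} (hp : p ≠ 0) (h : ζ ^ p = 1) (h1 : ζ ≠ 1) (hwp : w (p : C) = 1) :
    w (1 - ζ) = 1 := by
  have hζ : w ζ = 1 := val_root_one w hp h
  have hle : w (1 - ζ) ≤ 1 := (Valuation.map_sub w 1 ζ).trans (by rw [map_one, hζ, max_self])
  refine le_antisymm hle ?_
  have hgeom : ∑ i ∈ Finset.range p, ζ ^ i = 0 := by
    have h2 := geom_sum_mul ζ p
    rw [h, sub_self] at h2
    exact (mul_eq_zero.mp h2).resolve_right (sub_ne_zero.mpr h1)
  have h3 : (p : C) = ∑ i ∈ Finset.range p, (1 - ζ ^ i) := by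
    rw [Finset.sum_sub_distrib, hgeom, sub_zero, Finset.sum_const, Finset.card_range, nsmul_eq_mul, mul_one]
  rw [← hwp, h3]
  refine Valuation.map_sum_le w fun i _ => ?_
  have h4 : 1 - ζ ^ i = (1 - ζ) * ∑ j ∈ Finset.range i, ζ ^ j := by
    have h5 := geom_sum_mul ζ i
    linear_combination h5
  rw [h4, map_mul]
  refine mul_le_of_le_one_right' (Valuation.map_sum_le w fun j _ => ?_)
  rw [map_pow, hζ, one_pow]

/-- the valuation of `g₁ - g₂` if `g₁ ^ p - g₂ ^ p` is a unit -/
theorem val_norm {p : ℕ} (hp : p.Prime) {ζ : C} (hζ : IsPrimitiveRoot ζ p) (hwp : w (p : C) = 1)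
    {g₁ g₂ d : C} (hd : w d = 1) (h : g₁ ^ p - g₂ ^ p = d) :
    (w g₁ ≤ 1 → w (g₁ - g₂) = 1) ∧
    (1 < w g₁ → w (g₁ - g₂) = w g₁ ∨ w (g₁ - g₂) * w g₁ ^ (p - 1) = 1) := by
  classical
  have hp0 : p ≠ 0 := hp.ne_zero
  have hprod := hζ.pow_sub_pow_eq_prod_sub_mul g₁ g₂ hp.pos
  have h1mem : (1 : C) ∈ nthRootsFinset p (1 : C) := by
    rw [mem_nthRootsFinset hp.pos]
    exact one_pow p
  rw [← Finset.mul_prod_erase _ _ h1mem, one_mul, h] at hprod
  have hroot : ∀ z ∈ (nthRootsFinset p (1 : C)).erase 1, z ^ p = 1 ∧ z ≠ 1 := by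
    intro z hz
    rw [Finset.mem_erase, mem_nthRootsFinset hp.pos] at hz
    exact ⟨hz.2, hz.1⟩
  have hcard : ((nthRootsFinset p (1 : C)).erase 1).card = p - 1 := by
    rw [Finset.card_erase_of_mem h1mem, hζ.card_nthRootsFinset]
  have hval : w (g₁ - g₂) * ∏ z ∈ (nthRootsFinset p (1 : C)).erase 1, w (g₁ - z * g₂) = 1 := by
    rw [← map_prod, ← map_mul, ← hprod, hd]
  constructor
  · intro h1
    have h2 : w g₂ ≤ 1 := by
      have h3 : w g₂ ^ p ≤ 1 := by
        have h4 : g₂ ^ p = g₁ ^ p - d := by rw [← h]; ring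
        rw [← map_pow, h4]
        refine (Valuation.map_sub w _ _).trans (max_le ?_ hd.le)
        rw [map_pow]
        exact pow_le_one' h1 p
      exact (pow_le_one_iff hp0).mp h3
    have h3 : w (g₁ - g₂) ≤ 1 := (Valuation.map_sub w _ _).trans (max_le h1 h2)
    refine le_antisymm h3 ?_
    rw [← hval]
    refine mul_le_of_le_one_right' (Finset.prod_le_one' fun z hz => ?_)
    refine (Valuation.map_sub w _ _).trans (max_le h1 ?_)
    rw [map_mul, val_root_one w hp0 (hroot z hz).1, one_mul]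
    exact h2
  · intro h1
    have h2 : w g₂ = w g₁ := by
      refine pow_inj hp0 ?_
      have h4 : g₂ ^ p = g₁ ^ p - d := by rw [← h]; ring
      rw [← map_pow, h4, ← map_pow]
      refine Valuation.map_sub_eq_of_lt_left w ?_
      rw [hd, map_pow]
      exact one_lt_pow₀ h1 hp0
    have h3 : w (g₁ - g₂) ≤ w g₁ := (Valuation.map_sub w _ _).trans (max_le le_rfl h2.le)
    rcases h3.eq_or_lt with h4 | h4
    · exact Or.inl h4
    · right
      rw [← hval]
      congr 1
      rw [Finset.prod_congr rfl (g := fun _ => w g₁), Finset.prod_const, hcard]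
      intro z hz
      obtain ⟨hz1, hz2⟩ := hroot z hz
      have h5 : g₁ - z * g₂ = (g₁ - g₂) + (1 - z) * g₂ := by ring
      have h6 : w ((1 - z) * g₂) = w g₁ := by
        rw [map_mul, val_one_sub w hp0 hz1 hz2 hwp, one_mul, h2]
      rw [h5, Valuation.map_add_eq_of_lt_right, h6]
      rw [h6]
      exact h4

end

end Pool.Agent.Lib.MP_2f3286_ag.LN
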