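import Mathlib

/-!
# Valuations of the factors of `x² + a x + b` if it is `m y ^ p`
-/

open WithZero

namespace Pool.Agent.Lib.MP_2f3286_ag.LN

/-- If `(X - t)(X - t') = μ Y ^ p` with `μ`, `t - t'` units and `t, t'` integral, and `X - t = c h ^ p`,
`X - t' = (μ / c) h' ^ p`, then the valuation of `c` is a `p`-th power. -/
theorem val_pow {F Γ : Type*} [Field F] [LinearOrderedCommGroupWithZero Γ] (v : Valuation F Γ)
    {p : ℕ} (hp : Odd p) {X Y t t' μ c h h' : F} (hc : c ≠ 0) (hμ : v μ = 1) (hδ : v (t - t') = 1)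
    (ht : v t ≤ 1) (ht' : v t' ≤ 1) (hrel : (X - t) * (X - t') = μ * Y ^ p)
    (h1 : X - t = c * h ^ p) (h2 : X - t' = μ / c * h' ^ p) :
    ∃ u : F, u ≠ 0 ∧ v c = v u ^ p := by
  have hp0 : p ≠ 0 := by rintro rfl; exact absurd hp (by decide)
  have hvc : v c ≠ 0 := (Valuation.ne_zero_iff v).mpr hc
  rcases le_or_gt (v X) 1 with hX | hX
  · -- the integral case
    have ha : v (X - t) ≤ 1 := (Valuation.map_sub v X t).trans (max_le hX ht)
    have hb : v (X - t') ≤ 1 := (Valuation.map_sub v X t').trans (max_le hX ht')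
    have hmax : v (X - t) = 1 ∨ v (X - t') = 1 := by
      by_contra hcon
      push Not at hcon
      have h3 : v ((X - t') - (X - t)) < 1 := by
        refine lt_of_le_of_lt (Valuation.map_sub v _ _) (max_lt ?_ ?_)
        · exact lt_of_le_of_ne hb hcon.2
        · exact lt_of_le_of_ne ha hcon.1
      have h4 : (X - t') - (X - t) = t - t' := by ring
      rw [h4, hδ] at h3
      exact lt_irrefl _ h3
    rcases hmax with h3 | h3
    · have hh : h ≠ 0 := by
        rintro rfl
        rw [h1, zero_pow hp0, mul_zero, map_zero] at h3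
        exact zero_ne_one h3
      refine ⟨h⁻¹, inv_ne_zero hh, ?_⟩
      rw [h1, map_mul, map_pow] at h3
      rw [map_inv₀, inv_pow]
      exact eq_inv_of_mul_eq_one_left h3
    · have hh : h' ≠ 0 := by
        rintro rfl
        rw [h2, zero_pow hp0, mul_zero, map_zero] at h3
        exact zero_ne_one h3
      refine ⟨h', hh, ?_⟩
      rw [h2, map_mul, map_pow, map_div₀, hμ, one_div, inv_mul_eq_one₀ hvc] at h3
      exact h3
  · -- the case of a pole
    have ha : v (X - t) = v X := by
      rw [Valuation.map_sub_swap]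
      exact Valuation.map_sub_eq_of_lt_right v (lt_of_le_of_lt ht hX)
    have hb : v (X - t') = v X := by
      rw [Valuation.map_sub_swap]
      exact Valuation.map_sub_eq_of_lt_right v (lt_of_le_of_lt ht' hX)
    have hX0 : X ≠ 0 := by
      rintro rfl
      rw [map_zero] at hX
      exact not_lt_zero hX
    have hvX : v X ≠ 0 := (Valuation.ne_zero_iff v).mpr hX0
    have h3 : v X ^ 2 = v Y ^ p := by
      have h4 := congrArg v hrel
      rw [map_mul, map_mul, map_pow, ha, hb, hμ, one_mul, ← pow_two] at h4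
      exact h4
    have hY0 : Y ≠ 0 := by
      rintro rfl
      rw [map_zero, zero_pow hp0] at h3
      exact pow_ne_zero 2 hvX h3
    have hh : h ≠ 0 := by
      rintro rfl
      rw [h1, zero_pow hp0, mul_zero, map_zero] at ha
      exact hvX ha.symm
    obtain ⟨r, hr⟩ := hp
    refine ⟨Y ^ (r + 1) / (X * h), div_ne_zero (pow_ne_zero _ hY0) (mul_ne_zero hX0 hh), ?_⟩
    have h5 : v c * v h ^ p = v X := by rw [← map_pow, ← map_mul, ← h1, ha]
    have h6 : (v Y ^ (r + 1)) ^ p = v X ^ p * v X := by
      rw [← pow_mul, mul_comm, pow_mul, ← h3, ← pow_mul, ← pow_succ]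
      congr 1
      rw [hr]; ring
    have hvh : v h ≠ 0 := (Valuation.ne_zero_iff v).mpr hh
    rw [map_div₀, map_mul, map_pow, div_pow, mul_pow, h6, eq_div_iff
      (mul_ne_zero (pow_ne_zero p hvX) (pow_ne_zero p hvh)), mul_left_comm, h5]

end Pool.Agent.Lib.MP_2f3286_ag.LN
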