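import Pool.Agent.Lib.MP_2f3286_ag.GU.LClass
import Pool.Agent.Lib.MP_2f3286_ag.LN.Val

/-!
# The class of a `p`-th root of `x - θ` at a place
-/

open IsDedekindDomain NumberField Polynomial

namespace Pool.Agent.Lib.MP_2f3286_ag.LN

universe u

/-- The class `c` of `γ = (x - θ) ^ (1 / p)` over `E` under the section has, at an embedding of `E` into a valued field
at which `μ` and `θ - θ'` are units, a valuation divisible by `p`. -/
theorem class_val {k : Type u} [Field k] [NumberField k]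
    {K : Type*} [Field K] [Algebra k K] (R : Subalgebra k K)
    {M : Type*} [Field M] [Algebra K M] [Algebra (AlgebraicClosure k) M] [Algebra k M]
    [IsScalarTower k K M] [IsScalarTower k (AlgebraicClosure k) M]
    {E : Type*} [Field E] [Algebra k E] [Algebra.IsAlgebraic k E] (lam : E →ₐ[k] AlgebraicClosure k)
    (s : Gal(AlgebraicClosure k/k) →* Gal(M/K))
    (hsec : ∀ σ a, s σ (algebraMap (AlgebraicClosure k) M a) =
      algebraMap (AlgebraicClosure k) M (σ a))
    (v : HeightOneSpectrum (𝓞 k))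
    (ι : AlgebraicClosure k →ₐ[k] AlgebraicClosure (v.adicCompletion k))
    (φ : integralClosure R M →+* AlgebraicClosure (v.adicCompletion k))
    (hφ : Respects s (v.adicCompletion k) (ι : _ →+* AlgebraicClosure (v.adicCompletion k)) φ)
    {F : Type*} [Field F] [CharZero F] (j : E →+* F) (η : v.adicCompletion k →+* F)
    (hη : ∀ a : k, η (algebraMap k (v.adicCompletion k) a) = j (algebraMap k E a))
    {Γ : Type*} [LinearOrderedCommGroupWithZero Γ] (w : Valuation F Γ)
    {p : ℕ} (hp : Odd p) (x y : R) (θ θ' μ c : E) (hc : c ≠ 0)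
    (hrel : (algebraMap R M x - algebraMap _ M (lam θ)) * (algebraMap R M x - algebraMap _ M (lam θ')) =
      algebraMap _ M (lam μ) * algebraMap R M y ^ p)
    (γ : M) (hγ0 : γ ≠ 0) (hγ : γ ^ p = algebraMap R M x - algebraMap _ M (lam θ))
    (z : AlgebraicClosure k) (hz : z ^ p = lam c)
    (hs : ∀ σ ∈ lam.fieldRange.fixingSubgroup, s σ γ * algebraMap (AlgebraicClosure k) M z =
      γ * algebraMap (AlgebraicClosure k) M (σ z))
    (hμ : w (j μ) = 1) (hδ : w (j θ - j θ') = 1) (hθ : w (j θ) ≤ 1) (hθ' : w (j θ') ≤ 1) :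
    ∃ u : F, u ≠ 0 ∧ w (j c) = w u ^ p := by
  classical
  have hp0 : p ≠ 0 := by rintro rfl; exact absurd hp (by decide)
  have hchar : CharZero (v.adicCompletion k) :=
    charZero_of_injective_algebraMap (algebraMap k (v.adicCompletion k)).injective
  obtain ⟨q, hq⟩ := exists_local_point R s v ι φ hφ
  obtain ⟨ι', φ', hres, hι', hφ'⟩ := GU.exists_pair_E R lam s hsec v ι φ hφ q hq j η hη
  have hz0 : z ≠ 0 := by
    rintro rfl
    rw [zero_pow hp0] at hz
    exact hc (by rwa [eq_comm, map_eq_zero] at hz)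
  have hBk : ∀ a : AlgebraicClosure k, IsIntegral R (algebraMap (AlgebraicClosure k) M a) := by
    intro a
    have htow' : IsScalarTower k R M := IsScalarTower.of_algebraMap_eq fun x => by
      rw [IsScalarTower.algebraMap_apply k K M]; rfl
    have h1 : IsIntegral k a := Algebra.IsIntegral.isIntegral a
    have h2 : IsIntegral k (algebraMap (AlgebraicClosure k) M a) := h1.algebraMap
    exact h2.tower_top
  have hL : ∀ x : lam.fieldRange, ∃ y : F, algebraMap F (AlgebraicClosure F) y = ι' x := by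
    rintro ⟨_, l, rfl⟩
    exact ⟨j l, (hι' l).symm⟩
  have hMz : algebraMap (AlgebraicClosure k) M z ≠ 0 := (_root_.map_ne_zero _).mpr hz0
  have hlamσ : ∀ σ ∈ lam.fieldRange.fixingSubgroup, ∀ l, σ (lam l) = lam l := by
    intro σ hσ l
    rw [IntermediateField.mem_fixingSubgroup_iff] at hσ
    exact hσ (lam l) ⟨l, rfl⟩
  -- descent of an element with class `z`
  have hdesc : ∀ (β : M) (hβ : IsIntegral R β) (u : AlgebraicClosure k), u ≠ 0 →
      (∀ σ ∈ lam.fieldRange.fixingSubgroup, s σ β * algebraMap (AlgebraicClosure k) M u =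
        β * algebraMap (AlgebraicClosure k) M (σ u)) →
      ∃ h : F, φ' ⟨β, hβ⟩ = ι' u * algebraMap F _ h := by
    intro β hβ u hu0 hsβ
    have hMu : algebraMap (AlgebraicClosure k) M u ≠ 0 := (_root_.map_ne_zero _).mpr hu0
    have hιu : ι' u ≠ 0 := (_root_.map_ne_zero _).mpr hu0
    by_cases hβ0 : β = 0
    · refine ⟨0, ?_⟩
      have h1 : (⟨β, hβ⟩ : integralClosure R M) = 0 := Subtype.ext hβ0
      rw [h1, map_zero, map_zero, mul_zero]
    have hform : ∀ σ ∈ lam.fieldRange.fixingSubgroup,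
        s σ β = algebraMap (AlgebraicClosure k) M (σ u / u) * β := by
      intro σ hσ
      rw [map_div₀, div_mul_eq_mul_div, eq_div_iff hMu, hsβ σ hσ, mul_comm]
    obtain ⟨h, hh⟩ := quot_mem (B := integralClosure R M) s hBk hres lam.fieldRange hL
      ⟨β, hβ⟩ (fun σ hσ => ⟨σ u / u, hform σ hσ⟩) (Units.mk0 u hu0) (fun σ hσ ζ hζ => by
        have h1 : algebraMap (AlgebraicClosure k) M ζ = algebraMap (AlgebraicClosure k) M (σ u / u) := by
          apply mul_right_cancel₀ hβ0
          rw [← hform σ hσ]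
          exact hζ.symm
        have h2 := (algebraMap (AlgebraicClosure k) M).injective h1
        rw [Units.val_mk0, h2, div_mul_cancel₀ _ hu0])
    refine ⟨h, ?_⟩
    rw [hh, Units.val_mk0, mul_div_cancel₀ _ hιu]
  have hγint : IsIntegral R γ := IsIntegral.of_pow (Nat.pos_of_ne_zero hp0) (by
    rw [hγ]; exact isIntegral_algebraMap.sub (hBk _))
  obtain ⟨h, hh⟩ := hdesc γ hγint z hz0 hs
  -- the second root
  obtain ⟨ρ, hρ⟩ := IsAlgClosed.exists_pow_nat_eq (lam μ) (Nat.pos_of_ne_zero hp0)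
  have hMγ : ∀ n : ℕ, γ ^ n ≠ 0 := fun n => pow_ne_zero n hγ0
  set γ' : M := algebraMap R M y / γ with hγ'def
  have hγ'p : algebraMap _ M (lam μ) * γ' ^ p = algebraMap R M x - algebraMap _ M (lam θ') := by
    rw [hγ'def, div_pow, hγ, ← mul_div_assoc, ← hrel, mul_comm, mul_div_assoc, div_self, mul_one]
    rw [← hγ]; exact hMγ p
  have hμ0 : μ ≠ 0 := by
    rintro rfl
    rw [map_zero, map_zero] at hμ
    exact zero_ne_one hμ
  have hγ'int : IsIntegral R γ' := by
    refine IsIntegral.of_pow (Nat.pos_of_ne_zero hp0) ?_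
    have h1 : γ' ^ p = algebraMap _ M (lam μ)⁻¹ * (algebraMap R M x - algebraMap _ M (lam θ')) := by
      rw [← hγ'p, ← mul_assoc, ← map_mul, inv_mul_cancel₀, map_one, one_mul]
      exact (_root_.map_ne_zero _).mpr hμ0
    rw [h1]
    exact (hBk _).mul (isIntegral_algebraMap.sub (hBk _))
  have hsR : ∀ σ, ∀ r : R, s σ (algebraMap R M r) = algebraMap R M r := by
    intro σ r
    have h1 : algebraMap R M r = algebraMap K M (r : K) := rfl
    rw [h1, AlgEquiv.commutes]
  obtain ⟨h', hh'⟩ := hdesc γ' hγ'int z⁻¹ (inv_ne_zero hz0) (by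
    intro σ hσ
    have hMσz : algebraMap (AlgebraicClosure k) M (σ z) ≠ 0 :=
      (_root_.map_ne_zero _).mpr ((_root_.map_ne_zero _).mpr hz0)
    have hsγ0 : s σ γ ≠ 0 := (_root_.map_ne_zero _).mpr hγ0
    have h1 := hs σ hσ
    rw [hγ'def, map_div₀, hsR, map_inv₀, map_inv₀, map_inv₀, div_mul_eq_mul_div, div_mul_eq_mul_div,
      div_eq_div_iff hsγ0 hγ0]
    field_simp
    rw [mul_assoc, mul_assoc, ← h1]
    ring)
  have hX : ∀ t : E, φ' (algebraMap R _ x - ⟨_, hBk (lam t)⟩) = algebraMap F _ (η (q x) - j t) := by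
    intro t
    rw [map_sub, hφ', hres.1 (lam t) ⟨_, hBk (lam t)⟩ rfl, hι', map_sub]
  have hinj := (algebraMap F (AlgebraicClosure F)).injective
  have e1 : η (q x) - j θ = j c * h ^ p := by
    apply hinj
    rw [← hX, map_mul, map_pow, ← hι', ← hz, map_pow, ← mul_pow, ← hh, ← map_pow]
    congr 1
    exact Subtype.ext hγ.symm
  have e2 : η (q x) - j θ' = j μ / j c * h' ^ p := by
    apply hinj
    have h1 : (⟨_, hBk (lam μ)⟩ : integralClosure R M) * ⟨γ', hγ'int⟩ ^ p =
        algebraMap R _ x - ⟨_, hBk (lam θ')⟩ := Subtype.ext hγ'p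
    have h2 : ι' z ^ p = algebraMap F _ (j c) := by rw [← map_pow, hz, hι']
    have hjc : algebraMap F (AlgebraicClosure F) (j c) ≠ 0 :=
      (_root_.map_ne_zero _).mpr ((_root_.map_ne_zero _).mpr hc)
    rw [← hX, ← h1, map_mul, map_pow, hres.1 (lam μ) ⟨_, hBk (lam μ)⟩ rfl, hι', hh', map_mul,
      map_div₀, map_pow, mul_pow, map_inv₀, inv_pow, h2]
    field_simp
  have e3 : (η (q x) - j θ) * (η (q x) - j θ') = j μ * η (q y) ^ p := by
    apply hinj
    have h1 : (algebraMap R _ x - ⟨_, hBk (lam θ)⟩) * (algebraMap R _ x - ⟨_, hBk (lam θ')⟩) =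
        (⟨_, hBk (lam μ)⟩ : integralClosure R M) * algebraMap R _ y ^ p := Subtype.ext hrel
    have h2 := congrArg φ' h1
    rw [map_mul, hX, hX, map_mul, map_pow, hres.1 (lam μ) ⟨_, hBk (lam μ)⟩ rfl, hι', hφ'] at h2
    rw [map_mul, map_mul, map_pow, h2]
  exact val_pow w hp ((_root_.map_ne_zero _).mpr hc) hμ hδ hθ hθ' e3 e1 e2

end Pool.Agent.Lib.MP_2f3286_ag.LN
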