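import Pool.Agent.Lib.MP_2f3286_ag.PA.Contact

/-!
# Values of coprime polynomials whose product is a `p`-th power
-/

open IsDedekindDomain NumberField Polynomial WithZero

namespace Pool.Agent.Lib.MP_2f3286_ag.LN

variable {F : Type*} [Field F] (v : Valuation F ℤᵐ⁰)

/-- integral coefficients -/
def IntC (P : F[X]) : Prop := ∀ i, v (P.coeff i) ≤ 1

theorem loc_poly {p : ℕ} (hp : p.Prime) (P F₁ F₂ α β u u' : F[X]) (μ ρ δ : F)
    (hP : IntC v P) (hF₁ : IntC v F₁) (hF₂ : IntC v F₂) (hα : IntC v α) (hβ : IntC v β)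
    (hu : IntC v u) (hu' : IntC v u') (hμ : v μ = 1) (hρ : v ρ = 1) (hδ : v δ = 1)
    (hl₁ : v F₁.leadingCoeff = 1) (hab : α * P + β * F₁ = C ρ)
    (huu : u ^ p * F₁ - u' ^ p * F₂ = C δ)
    (hdeg : p ∣ F₁.natDegree ∨ (¬ p ∣ P.natDegree + F₁.natDegree + F₂.natDegree ∧
      v P.leadingCoeff = 1 ∧ v F₂.leadingCoeff = 1))
    (T Y : F) (hrel : F₁.eval T * (F₂ * P).eval T = μ * Y ^ p) :
    (∃ u, u ≠ 0 ∧ v (F₁.eval T) = v u ^ p) ∨ v ((F₂ * P).eval T) = 1 := by
  have hp0 := hp.ne_zero
  rcases le_or_gt (v T) 1 with hT | hT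
  · -- the integral case
    have e : ∀ Q : F[X], IntC v Q → v (Q.eval T) ≤ 1 := fun Q hQ => PA.val_eval_of_le v Q hQ T hT
    rcases (e F₁ hF₁).eq_or_lt with h1 | h1
    · left
      exact ⟨1, one_ne_zero, by rw [h1, map_one, one_pow]⟩
    · right
      have h2 : v (P.eval T) = 1 := by
        have h3 := congrArg (fun S : F[X] => S.eval T) hab
        simp only [eval_add, eval_mul, eval_C] at h3
        have h4 : α.eval T * P.eval T = ρ - β.eval T * F₁.eval T := by rw [← h3]; ring
        have h5 : v (α.eval T * P.eval T) = 1 := by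
          rw [h4, Valuation.map_sub_eq_of_lt_left, hρ]
          rw [hρ, map_mul]
          exact lt_of_le_of_lt (mul_le_of_le_one_left' (e β hβ)) h1
        rw [map_mul] at h5
        refine le_antisymm (e P hP) ?_
        rw [← h5]
        exact mul_le_of_le_one_left' (e α hα)
      have h3 : v (F₂.eval T) = 1 := by
        have h3 := congrArg (fun S : F[X] => S.eval T) huu
        simp only [eval_sub, eval_mul, eval_C, eval_pow] at h3
        have h4 : u'.eval T ^ p * F₂.eval T = u.eval T ^ p * F₁.eval T - δ := by rw [← h3]; ring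
        have h5 : v (u'.eval T ^ p * F₂.eval T) = 1 := by
          rw [h4, Valuation.map_sub_eq_of_lt_right, hδ]
          rw [hδ, map_mul, map_pow]
          exact lt_of_le_of_lt (mul_le_of_le_one_left' (pow_le_one' (e u hu) p)) h1
        rw [map_mul, map_pow] at h5
        refine le_antisymm (e F₂ hF₂) ?_
        rw [← h5]
        exact mul_le_of_le_one_left' (pow_le_one' (e u' hu') p)
      rw [eval_mul, map_mul, h2, h3, one_mul]
  · -- the case of a pole
    left
    have hT0 : T ≠ 0 := by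
      rintro rfl
      rw [map_zero] at hT
      exact not_lt_zero hT
    have hvT : v T ≠ 0 := (Valuation.ne_zero_iff v).mpr hT0
    have h1 := PA.val_eval_of_gt v F₁ hF₁ hl₁ T hT
    rcases hdeg with ⟨m, hm⟩ | ⟨hd, hlP, hl₂⟩
    · refine ⟨T ^ m, pow_ne_zero m hT0, ?_⟩
      rw [h1, hm, map_pow, ← pow_mul, mul_comm]
    · have h2 := PA.val_eval_of_gt v F₂ hF₂ hl₂ T hT
      have h3 := PA.val_eval_of_gt v P hP hlP T hT
      have h4 : v T ^ (P.natDegree + F₁.natDegree + F₂.natDegree) = v Y ^ p := by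
        have h5 := congrArg v hrel
        rw [eval_mul, map_mul, map_mul, map_mul, map_pow, hμ, one_mul, h1, h2, h3] at h5
        rw [← h5, pow_add, pow_add]
        ac_rfl
      set n := P.natDegree + F₁.natDegree + F₂.natDegree with hn
      have hY0 : Y ≠ 0 := by
        rintro rfl
        rw [map_zero, zero_pow hp0] at h4
        exact pow_ne_zero n hvT h4
      have hcop : Nat.Coprime n p := (Nat.Coprime.symm ((Nat.Prime.coprime_iff_not_dvd hp).mpr hd))
      have hbez : (1 : ℤ) = n * Nat.gcdA n p + p * Nat.gcdB n p := by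
        have h5 := Nat.gcd_eq_gcd_ab n p
        rw [hcop.gcd_eq_one] at h5
        exact_mod_cast h5
      set a := Nat.gcdA n p
      set b := Nat.gcdB n p
      have h5 : v (Y ^ a * T ^ b) ^ p = v T := by
        rw [map_mul, map_zpow₀, map_zpow₀, mul_pow, ← zpow_natCast, ← zpow_natCast, ← zpow_mul, ← zpow_mul,
          mul_comm a, mul_comm b, zpow_mul, zpow_natCast, ← h4, ← zpow_natCast, ← zpow_mul,
          ← zpow_add₀ hvT, ← hbez, zpow_one]
      refine ⟨(Y ^ a * T ^ b) ^ F₁.natDegree, pow_ne_zero _ (mul_ne_zero (zpow_ne_zero _ hY0)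
        (zpow_ne_zero _ hT0)), ?_⟩
      rw [h1, map_pow, pow_right_comm, h5]

end Pool.Agent.Lib.MP_2f3286_ag.LN
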