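import Pool.Agent.Lib.MP_2f3286_ag.PA.Contact
import Pool.Agent.Lib.MP_2f3286_ag.LN.Class
import Pool.Agent.Lib.MP_2f3286_ag.Fer.Away
import Pool.Agent.Lib.MP_2f3286_ag.Fer.UCls
import Pool.Agent.Lib.MP_2f3286_ag.NormStage

/-!
# The ratio of the classes of two `p`-th roots over `E`: valuations divisible by `p`
-/

open IsDedekindDomain NumberField Polynomial WithZero IntermediateField

namespace Pool.Agent.Lib.MP_2f3286_ag.LN

section

variable {F : Type*} [Field F] (v : Valuation F ℤᵐ⁰)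

/-- Values of two coprime polynomials whose product is a `p`-th power. -/
theorem loc_poly2 {p : ℕ} (hp : p.Prime) (F₁ G A B : F[X]) (μ ρ : F)
    (hF₁ : ∀ i, v (F₁.coeff i) ≤ 1) (hG : ∀ i, v (G.coeff i) ≤ 1) (hB : ∀ i, v (B.coeff i) ≤ 1)
    (hA : ∀ i, v (A.coeff i) ≤ 1) (hμ : v μ = 1) (hρ : v ρ = 1)
    (hl₁ : v F₁.leadingCoeff = 1) (hab : A * F₁ + B * G = C ρ)
    (hdeg : p ∣ F₁.natDegree ∨ (¬ p ∣ F₁.natDegree + G.natDegree ∧ v G.leadingCoeff = 1))
    (T Y : F) (hrel : F₁.eval T * G.eval T = μ * Y ^ p) :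
    (∃ u, u ≠ 0 ∧ v (F₁.eval T) = v u ^ p) ∨ v (G.eval T) = 1 := by
  have hp0 := hp.ne_zero
  rcases le_or_gt (v T) 1 with hT | hT
  · -- the integral case
    have e : ∀ Q : F[X], (∀ i, v (Q.coeff i) ≤ 1) → v (Q.eval T) ≤ 1 :=
      fun Q hQ => PA.val_eval_of_le v Q hQ T hT
    rcases (e F₁ hF₁).eq_or_lt with h1 | h1
    · left
      exact ⟨1, one_ne_zero, by rw [h1, map_one, one_pow]⟩
    · right
      have h3 := congrArg (fun S : F[X] => S.eval T) hab
      simp only [eval_add, eval_mul, eval_C] at h3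
      have h4 : B.eval T * G.eval T = ρ - A.eval T * F₁.eval T := by rw [← h3]; ring
      have h5 : v (B.eval T * G.eval T) = 1 := by
        rw [h4, Valuation.map_sub_eq_of_lt_left, hρ]
        rw [hρ, map_mul]
        exact lt_of_le_of_lt (mul_le_of_le_one_left' (e A hA)) h1
      rw [map_mul] at h5
      refine le_antisymm (e G hG) ?_
      rw [← h5]
      exact mul_le_of_le_one_left' (e B hB)
  · -- the case of a pole
    left
    have hT0 : T ≠ 0 := by
      rintro rfl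
      rw [map_zero] at hT
      exact not_lt_zero hT
    have hvT : v T ≠ 0 := (Valuation.ne_zero_iff v).mpr hT0
    have h1 := PA.val_eval_of_gt v F₁ hF₁ hl₁ T hT
    rcases hdeg with ⟨m, hm⟩ | ⟨hd, hlG⟩
    · refine ⟨T ^ m, pow_ne_zero m hT0, ?_⟩
      rw [h1, hm, map_pow, ← pow_mul, mul_comm]
    · have h2 := PA.val_eval_of_gt v G hG hlG T hT
      have h4 : v T ^ (F₁.natDegree + G.natDegree) = v Y ^ p := by
        have h5 := congrArg v hrel
        rw [map_mul, map_mul, map_pow, hμ, one_mul, h1, h2] at h5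
        rw [← h5, pow_add]
      set n := F₁.natDegree + G.natDegree with hn
      have hY0 : Y ≠ 0 := by
        rintro rfl
        rw [map_zero, zero_pow hp0] at h4
        exact pow_ne_zero n hvT h4
      have hcop : Nat.Coprime n p := (Nat.Coprime.symm ((Nat.Prime.coprime_iff_not_dvd hp).mpr hd))
      have hbez : (1 : ℤ) = n * Nat.gcdA n p + p * Nat.gcdB n p := by
        have h5 := Nat.gcd_eq_gcd_ab n p
        rw [hcop.gcd_eq_one] at h5
        exact_mod_cast h5
      set a := Nat.gcdA n p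
      set b := Nat.gcdB n p
      have h5 : v (Y ^ a * T ^ b) ^ p = v T := by
        rw [map_mul, map_zpow₀, map_zpow₀, mul_pow, ← zpow_natCast, ← zpow_natCast, ← zpow_mul, ← zpow_mul,
          mul_comm a, mul_comm b, zpow_mul, zpow_natCast, ← h4, ← zpow_natCast, ← zpow_mul,
          ← zpow_add₀ hvT, ← hbez, zpow_one]
      refine ⟨(Y ^ a * T ^ b) ^ F₁.natDegree, pow_ne_zero _ (mul_ne_zero (zpow_ne_zero _ hY0)
        (zpow_ne_zero _ hT0)), ?_⟩
      rw [h1, map_pow, pow_right_comm, h5]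

end

universe u

/-- the local conditions at the place `w` -/
structure GoodAt {E : Type*} [Field E] [NumberField E] (p : ℕ) (w : HeightOneSpectrum (𝓞 E))
    (F₁ G : E[X]) (m : E) : Prop where
  hF₁ : ∀ i, w.valuation E (F₁.coeff i) ≤ 1
  hG : ∀ i, w.valuation E (G.coeff i) ≤ 1
  hm : w.valuation E m = 1
  hl : w.valuation E F₁.leadingCoeff = 1
  hcop : ∃ (A B : E[X]) (ρ : E), (∀ i, w.valuation E (A.coeff i) ≤ 1) ∧
    (∀ i, w.valuation E (B.coeff i) ≤ 1) ∧ w.valuation E ρ = 1 ∧ A * F₁ + B * G = C ρ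
  hdeg : p ∣ F₁.natDegree ∨ (¬ p ∣ F₁.natDegree + G.natDegree ∧ w.valuation E G.leadingCoeff = 1)

section

variable {k : Type u} [Field k] [NumberField k]
    {K : Type*} [Field K] [Algebra k K]
    (R : Subalgebra k K)
    {M : Type*} [Field M] [Algebra K M]
    [Algebra (AlgebraicClosure k) M] [Algebra k M]
    [IsScalarTower k K M] [IsScalarTower k (AlgebraicClosure k) M]
    {E : Type*} [Field E] [NumberField E] [Algebra k E] (lam : E →ₐ[k] AlgebraicClosure k)

/-- the class of the `p`-th root `γ` under the section over `E` -/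
structure IsClass (s : Gal(AlgebraicClosure k/k) →* Gal(M/K)) (p : ℕ) (γ : M)
    (z : AlgebraicClosure k) (c : E) : Prop where
  hγ : γ ≠ 0
  hc : c ≠ 0
  hz : z ^ p = lam c
  hs : ∀ σ ∈ lam.fieldRange.fixingSubgroup, s σ γ * algebraMap (AlgebraicClosure k) M z =
      γ * algebraMap (AlgebraicClosure k) M (σ z)

/-- the class at a good place -/
theorem pv_of_good (s : Gal(AlgebraicClosure k/k) →* Gal(M/K))
    (hsec : ∀ σ a, s σ (algebraMap (AlgebraicClosure k) M a) =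
      algebraMap (AlgebraicClosure k) M (σ a))
    (ι : ∀ v : HeightOneSpectrum (𝓞 k),
      AlgebraicClosure k →ₐ[k] AlgebraicClosure (v.adicCompletion k))
    (φ : ∀ v : HeightOneSpectrum (𝓞 k),
      integralClosure R M →+* AlgebraicClosure (v.adicCompletion k))
    (hφ : ∀ v, Respects s (v.adicCompletion k)
      (ι v : _ →+* AlgebraicClosure (v.adicCompletion k)) (φ v))
    {p : ℕ} (hp : p.Prime) (t y : R) (F₁ G : E[X]) (m : E)
    (hrel : F₁.eval₂ (cE lam M) (algebraMap R M t) * G.eval₂ (cE lam M) (algebraMap R M t) =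
      algebraMap _ M (lam m) * algebraMap R M y ^ p)
    (γ : M) (hγp : γ ^ p = F₁.eval₂ (cE lam M) (algebraMap R M t)) (z : AlgebraicClosure k) (c : E)
    (hcl : IsClass lam s p γ z c) (w : HeightOneSpectrum (𝓞 E)) (hw : GoodAt p w F₁ G m) :
    Fer.PV p w c := by
  obtain ⟨v, hv⟩ := exists_below (L := k) (F := E) w
  obtain ⟨η, hη, hηv⟩ := @PA.exists_completion_hom_val k E _ _ _ _ _ v w hv
  have hchar : CharZero (w.adicCompletion E) :=
    charZero_of_injective_algebraMap (algebraMap E (w.adicCompletion E)).injective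
  have halg : Algebra.IsAlgebraic k E := by
    have : Algebra.IsAlgebraic ℚ E := inferInstance
    exact Algebra.IsAlgebraic.tower_top (K := ℚ) k
  rw [Fer.pv_iff hp.ne_zero]
  obtain ⟨A, B, ρ, hA, hB, hρ, hab⟩ := hw.hcop
  set j := algebraMap E (w.adicCompletion E) with hj
  have hco : ∀ P : E[X], (∀ i, w.valuation E (P.coeff i) ≤ 1) → ∀ i, Valued.v ((P.map j).coeff i) ≤ 1 := by
    intro P hP i
    rw [coeff_map, val_alg]
    exact hP i
  refine class_val' R lam s hsec v (ι v) (φ v) (hφ v) j η hη Valued.v hp.ne_zero t y F₁ G m c hcl.hc hrel γ hcl.hγ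
    hγp z hcl.hz hcl.hs (by rw [val_alg]; exact hw.hm) (fun T Y hTY => ?_)
  rw [← eval_map, ← eval_map] at hTY ⊢
  refine loc_poly2 Valued.v hp (F₁.map j) (G.map j) (A.map j) (B.map j) (j m) (j ρ) (hco _ hw.hF₁) (hco _ hw.hG)
    (hco _ hB) (hco _ hA) (by rw [val_alg]; exact hw.hm) (by rw [val_alg]; exact hρ)
    (by rw [leadingCoeff_map, val_alg]; exact hw.hl) ?_ ?_ T Y hTY
  · have h1 := congrArg (Polynomial.map j) hab
    rw [Polynomial.map_add, Polynomial.map_mul, Polynomial.map_mul, map_C] at h1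
    exact h1
  · rw [natDegree_map, natDegree_map, leadingCoeff_map, val_alg]
    exact hw.hdeg

omit [NumberField k] [NumberField E] [Algebra k K] [Algebra k M] [IsScalarTower k K M]
    [IsScalarTower k (AlgebraicClosure k) M] in
/-- classes are unique up to `p`-th powers -/
theorem class_unique [CharZero k] (s : Gal(AlgebraicClosure k/k) →* Gal(M/K))
    (hsec : ∀ σ a, s σ (algebraMap (AlgebraicClosure k) M a) =
      algebraMap (AlgebraicClosure k) M (σ a))
    {p : ℕ} (hp : p.Prime) (γ γ' : M) (h : γ ^ p = γ' ^ p) (z z' : AlgebraicClosure k) (c c' : E)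
    (hcl : IsClass lam s p γ z c) (hcl' : IsClass lam s p γ' z' c') :
    ∃ b : E, b ≠ 0 ∧ c = c' * b ^ p := by
  have hp0 := hp.ne_zero
  have hne : ∀ (z : AlgebraicClosure k) (c : E), c ≠ 0 → z ^ p = lam c → z ≠ 0 := by
    intro z c hc hz h0
    rw [h0, zero_pow hp0] at hz
    exact (_root_.map_ne_zero lam).mpr hc hz.symm
  have hz0 := hne z c hcl.hc hcl.hz
  have hz0' := hne z' c' hcl'.hc hcl'.hz
  obtain ⟨ζ, hζ⟩ := root_of_unity_mem (AlgebraicClosure k) M hp.one_le (ξ := γ / γ') (by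
    rw [div_pow, h, div_self (pow_ne_zero p hcl'.hγ)])
  have hγ : γ = algebraMap _ M ζ * γ' := by rw [hζ, div_mul_cancel₀ _ hcl'.hγ]
  have hζ0 : ζ ≠ 0 := by
    rintro rfl
    rw [map_zero, zero_mul] at hγ
    exact hcl.hγ hγ
  have hζp : ζ ^ p = 1 := by
    apply (algebraMap (AlgebraicClosure k) M).injective
    rw [map_pow, hζ, div_pow, h, div_self (pow_ne_zero p hcl'.hγ), map_one]
  have hfix : z / (ζ * z') ∈ lam.fieldRange := by
    rw [← InfiniteGalois.fixedField_fixingSubgroup lam.fieldRange, IntermediateField.mem_fixedField_iff]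
    intro σ hσ
    have h1 := hcl.hs σ hσ
    have h2 := hcl'.hs σ hσ
    have hMz' : algebraMap (AlgebraicClosure k) M z' ≠ 0 := (_root_.map_ne_zero _).mpr hz0'
    have h3 : σ ζ * σ z' * z = ζ * z' * σ z := by
      apply (algebraMap (AlgebraicClosure k) M).injective
      apply mul_right_cancel₀ hcl'.hγ
      rw [hγ, map_mul, hsec] at h1
      rw [map_mul, map_mul, map_mul, map_mul]
      calc algebraMap _ M (σ ζ) * algebraMap _ M (σ z') * algebraMap _ M z * γ'
          = algebraMap _ M (σ ζ) * (γ' * algebraMap _ M (σ z')) * algebraMap _ M z := by ring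
        _ = algebraMap _ M (σ ζ) * (s σ γ' * algebraMap _ M z') * algebraMap _ M z := by rw [h2]
        _ = (algebraMap _ M (σ ζ) * s σ γ' * algebraMap _ M z) * algebraMap _ M z' := by ring
        _ = (algebraMap _ M ζ * γ' * algebraMap _ M (σ z)) * algebraMap _ M z' := by rw [h1]
        _ = algebraMap _ M ζ * algebraMap _ M z' * algebraMap _ M (σ z) * γ' := by ring
    rw [map_div₀, map_mul, div_eq_div_iff (mul_ne_zero ((_root_.map_ne_zero σ).mpr hζ0)
      ((_root_.map_ne_zero σ).mpr hz0')) (mul_ne_zero hζ0 hz0')]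
    linear_combination -h3
  obtain ⟨b, hb⟩ := hfix
  have hb' : lam b = z / (ζ * z') := hb
  have hb0 : b ≠ 0 := by
    rintro rfl
    rw [map_zero] at hb'
    exact div_ne_zero hz0 (mul_ne_zero hζ0 hz0') hb'.symm
  refine ⟨b, hb0, lam.toRingHom.injective ?_⟩
  change lam c = lam (c' * b ^ p)
  rw [map_mul, map_pow, hb', ← hcl.hz, ← hcl'.hz, div_pow, mul_pow, hζp, one_mul, mul_div_cancel₀]
  exact pow_ne_zero p hz0'

omit [NumberField k] [NumberField E] [Algebra k K] [Algebra k M] [IsScalarTower k K M]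
    [IsScalarTower k (AlgebraicClosure k) M] in
/-- the conjugate class -/
theorem class_conj (s : Gal(AlgebraicClosure k/k) →* Gal(M/K))
    (hsec : ∀ σ a, s σ (algebraMap (AlgebraicClosure k) M a) =
      algebraMap (AlgebraicClosure k) M (σ a))
    {p : ℕ} (e : E ≃ₐ[k] E) (τ : Gal(AlgebraicClosure k/k)) (hτ : ∀ x, τ (lam x) = lam (e x))
    (γ : M) (z : AlgebraicClosure k) (c : E) (hcl : IsClass lam s p γ z c) :
    IsClass lam s p (s τ γ) (τ z) (e c) := by
  refine ⟨(_root_.map_ne_zero (s τ)).mpr hcl.hγ, (_root_.map_ne_zero e).mpr hcl.hc, ?_, fun σ hσ => ?_⟩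
  · rw [← map_pow, hcl.hz, hτ]
  · have hσ' : τ⁻¹ * σ * τ ∈ lam.fieldRange.fixingSubgroup := by
      rw [IntermediateField.mem_fixingSubgroup_iff] at hσ ⊢
      rintro _ ⟨x, rfl⟩
      change (τ⁻¹ * σ * τ) (lam x) = lam x
      rw [AlgEquiv.mul_apply, AlgEquiv.mul_apply, hτ, hσ (lam (e x)) ⟨e x, rfl⟩, ← hτ]
      change (τ⁻¹ * τ) (lam x) = lam x
      rw [inv_mul_cancel]
      rfl
    have h1 := congrArg (s τ) (hcl.hs _ hσ')
    rw [map_mul (s τ), map_mul (s τ), hsec, hsec] at h1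
    have h2 : s τ (s (τ⁻¹ * σ * τ) γ) = s σ (s τ γ) := by
      rw [← AlgEquiv.mul_apply, ← AlgEquiv.mul_apply, ← map_mul, ← map_mul]
      congr 2
      group
    have h3 : τ ((τ⁻¹ * σ * τ) z) = σ (τ z) := by
      rw [← AlgEquiv.mul_apply, ← AlgEquiv.mul_apply]
      congr 1
      group
    rw [h2, h3] at h1
    exact h1

omit [NumberField k] [NumberField E] in
/-- an automorphism of `E` is induced by an automorphism of the algebraic closure -/
theorem exists_lift (e : E ≃ₐ[k] E) : ∃ τ : Gal(AlgebraicClosure k/k), ∀ x, τ (lam x) = lam (e x) := by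
  let _ : Algebra E (AlgebraicClosure k) := (lam : E →+* AlgebraicClosure k).toAlgebra
  have : IsScalarTower k E (AlgebraicClosure k) :=
    IsScalarTower.of_algebraMap_eq fun a => (lam.commutes a).symm
  exact ⟨e.liftNormal (AlgebraicClosure k), fun x => e.liftNormal_commutes (AlgebraicClosure k) x⟩

/-- the ratio of the classes -/
theorem ratio_pv (s : Gal(AlgebraicClosure k/k) →* Gal(M/K))
    (hsec : ∀ σ a, s σ (algebraMap (AlgebraicClosure k) M a) =
      algebraMap (AlgebraicClosure k) M (σ a))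
    (ι : ∀ v : HeightOneSpectrum (𝓞 k),
      AlgebraicClosure k →ₐ[k] AlgebraicClosure (v.adicCompletion k))
    (φ : ∀ v : HeightOneSpectrum (𝓞 k),
      integralClosure R M →+* AlgebraicClosure (v.adicCompletion k))
    (hφ : ∀ v, Respects s (v.adicCompletion k)
      (ι v : _ →+* AlgebraicClosure (v.adicCompletion k)) (φ v))
    {p : ℕ} (hp : p.Prime) (t y : R) (F₁ F₂ H : E[X]) (m : E)
    (hrel : F₁.eval₂ (cE lam M) (algebraMap R M t) * F₂.eval₂ (cE lam M) (algebraMap R M t) *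
      H.eval₂ (cE lam M) (algebraMap R M t) = algebraMap _ M (lam m) * algebraMap R M y ^ p)
    (γ₁ γ₂ : M) (hγ₁ : γ₁ ^ p = F₁.eval₂ (cE lam M) (algebraMap R M t))
    (hγ₂ : γ₂ ^ p = F₂.eval₂ (cE lam M) (algebraMap R M t))
    (z₁ z₂ : AlgebraicClosure k) (c₁ c₂ : E)
    (hcl₁ : IsClass lam s p γ₁ z₁ c₁) (hcl₂ : IsClass lam s p γ₂ z₂ c₂)
    (w : HeightOneSpectrum (𝓞 E))
    (hw : (GoodAt p w F₁ (F₂ * H) m ∧ GoodAt p w F₂ (F₁ * H) m) ∨
      ∃ e : E ≃ₐ[k] E, F₂ = F₁.map (e : E →+* E) ∧ ∀ x, w.valuation E (e x) = w.valuation E x) :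
    Fer.PV p w (c₁ / c₂) := by
  rcases hw with ⟨h1, h2⟩ | ⟨e, he, hew⟩
  · rw [div_eq_mul_inv]
    refine Fer.PV.mul ?_ (Fer.PV.inv ?_)
    · refine pv_of_good R lam s hsec ι φ hφ hp t y F₁ (F₂ * H) m ?_ γ₁ hγ₁ z₁ c₁ hcl₁ w h1
      rw [eval₂_mul, ← hrel]
      ring
    · refine pv_of_good R lam s hsec ι φ hφ hp t y F₂ (F₁ * H) m ?_ γ₂ hγ₂ z₂ c₂ hcl₂ w h2
      rw [eval₂_mul, ← hrel]
      ring
  · obtain ⟨τ, hτ⟩ := exists_lift lam e
    have h1 := class_conj lam s hsec e τ hτ γ₁ z₁ c₁ hcl₁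
    have h2 : (s τ γ₁) ^ p = γ₂ ^ p := by
      rw [← map_pow, hγ₁, hγ₂, he, eval₂_map]
      change (s τ : M →+* M) (eval₂ _ _ _) = _
      rw [hom_eval₂]
      have h3 : (s τ : M →+* M) (algebraMap R M t) = algebraMap R M t := AlgEquiv.commutes (s τ) (t : K)
      rw [h3]
      congr 1
      ext a
      change s τ (algebraMap _ M (lam a)) = algebraMap _ M (lam (e a))
      rw [hsec, hτ]
    obtain ⟨b, hb0, hb⟩ := class_unique lam s hsec hp _ _ h2 _ _ _ _ h1 hcl₂
    refine ⟨b, hb0, ?_⟩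
    have hc2 : w.valuation E c₂ ≠ 0 := (Valuation.ne_zero_iff _).mpr hcl₂.hc
    rw [map_div₀, ← hew c₁, hb, map_mul, map_pow, mul_div_assoc, mul_comm, div_mul_cancel₀ _ hc2]

omit [NumberField k] [Algebra k E] in
/-- the ideal class step -/
theorem glob {p : ℕ} (hp : p.Prime) (hcl : ¬ p ∣ classNumber E)
    (hu : ∀ u : (𝓞 E)ˣ, ∃ w : (𝓞 E)ˣ, (u : 𝓞 E) = (w : 𝓞 E) ^ p ∨ (u : 𝓞 E) = -(w : 𝓞 E) ^ p)
    {c : E} (hc : c ≠ 0) (h : ∀ w : HeightOneSpectrum (𝓞 E), Fer.PV p w c) :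
    ∃ b : E, b ≠ 0 ∧ (c = b ^ p ∨ c = -b ^ p) := by
  obtain ⟨u, d, hd, hcd⟩ := Fer.unit_class hp hcl hc h
  obtain ⟨w, hw⟩ := hu u
  have hw0 : ((w : 𝓞 E) : E) ≠ 0 := by simp
  refine ⟨((w : 𝓞 E) : E) * d, mul_ne_zero hw0 hd, ?_⟩
  rcases hw with h1 | h1
  · left
    have h2 : ((u : 𝓞 E) : E) = ((w : 𝓞 E) : E) ^ p := by
      rw [h1]; exact map_pow (algebraMap (𝓞 E) E) _ _
    rw [hcd, h2, mul_pow]
  · right
    have h2 : ((u : 𝓞 E) : E) = -((w : 𝓞 E) : E) ^ p := by
      rw [h1]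
      exact (map_neg (algebraMap (𝓞 E) E) _).trans (congrArg Neg.neg (map_pow (algebraMap (𝓞 E) E) _ _))
    rw [hcd, h2, mul_pow, neg_mul]

end

end Pool.Agent.Lib.MP_2f3286_ag.LN
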